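import Pool.Agent.H256R2.SC.R
import Pool.Agent.Q46.SL.Near
import Pool.Agent.Q46.MH.Box
import Mathlib.NumberTheory.Chebyshev

set_option autoImplicit false

/-! # Base: survivors of the first step, primes in `(y, 10 y]` -/

namespace Pool.Agent.Q46.IP

open Finset Filter

/-- the scale of the covering, in terms of the sieve limit -/
noncomputable def gy (y : ℝ) : ℝ :=
  y * Real.log y * Real.log (Real.log (Real.log y)) / (Real.log (Real.log y)) ^ 2

lemma t1 : Tendsto (fun y : ℝ => Real.log y) atTop atTop := Real.tendsto_log_atTop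
lemma t2 : Tendsto (fun y : ℝ => Real.log (Real.log y)) atTop atTop := t1.comp t1
lemma t3 : Tendsto (fun y : ℝ => Real.log (Real.log (Real.log y))) atTop atTop := t1.comp t2

/-- eventual inequalities for the scale -/
lemma ev_gy (c : ℝ) (hc : 0 < c) : ∀ᶠ y : ℝ in atTop, 9 * y + 1 ≤ c * gy y ∧ c * gy y ≤ y * (Real.log y) ^ 2 := by
  have h1 : ∀ᶠ t : ℝ in atTop, t ^ 2 ≤ t ^ 2 * 1 := Eventually.of_forall fun t => by linarith
  have h2 : ∀ᶠ t : ℝ in atTop, 20 / c * (Real.log t) ^ 2 ≤ t := by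
    have := (isLittleO_log_rpow_atTop (show (0 : ℝ) < 1 / 2 by norm_num)).def
      (show (0 : ℝ) < Real.sqrt (c / 20) by positivity)
    filter_upwards [this, eventually_ge_atTop (1 : ℝ)] with t ht ht1
    rw [Real.norm_eq_abs, Real.norm_eq_abs, abs_of_nonneg (Real.log_nonneg ht1),
      abs_of_nonneg (Real.rpow_nonneg (by linarith) _)] at ht
    have h3 : (Real.log t) ^ 2 ≤ (Real.sqrt (c / 20) * t ^ (1 / 2 : ℝ)) ^ 2 :=
      pow_le_pow_left₀ (Real.log_nonneg ht1) ht 2
    have h4 : (t ^ (1 / 2 : ℝ)) ^ 2 = t := by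
      rw [← Real.rpow_natCast, ← Real.rpow_mul (by linarith)]
      norm_num
    rw [mul_pow, Real.sq_sqrt (by positivity), h4] at h3
    calc 20 / c * Real.log t ^ 2 ≤ 20 / c * (c / 20 * t) := mul_le_mul_of_nonneg_left h3 (by positivity)
      _ = t := by field_simp
  have h3 : ∀ᶠ t : ℝ in atTop, c * Real.log t ≤ t := by
    have := Real.isLittleO_log_id_atTop.def (show (0 : ℝ) < 1 / c by positivity)
    filter_upwards [this, eventually_ge_atTop (1 : ℝ)] with t ht ht1
    rw [Real.norm_eq_abs, abs_of_nonneg (Real.log_nonneg ht1), Real.norm_eq_abs] at ht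
    simp only [id] at ht
    rw [abs_of_nonneg (by linarith)] at ht
    calc c * Real.log t ≤ c * (1 / c * t) := mul_le_mul_of_nonneg_left ht hc.le
      _ = t := by field_simp
  filter_upwards [eventually_ge_atTop (1 : ℝ), t1.eventually (eventually_ge_atTop (1 : ℝ)),
    t2.eventually (eventually_ge_atTop (1 : ℝ)), t3.eventually (eventually_ge_atTop (1 : ℝ)), t1.eventually h2,
    t2.eventually h3, t1.eventually (Real.isLittleO_log_id_atTop.def (show (0 : ℝ) < 1 by norm_num))] with y e1 e2 e3 e4 e5 e6 e7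
  have hy0 : 0 < y := by linarith
  have hl2 : 0 < (Real.log (Real.log y)) ^ 2 := by positivity
  unfold gy
  rw [mul_div_assoc']
  constructor
  · rw [le_div_iff₀ hl2]
    have g1 : 20 * (Real.log (Real.log y)) ^ 2 ≤ c * Real.log y := by
      have := mul_le_mul_of_nonneg_left e5 hc.le
      calc 20 * (Real.log (Real.log y)) ^ 2 = c * (20 / c * (Real.log (Real.log y)) ^ 2) := by field_simp
        _ ≤ _ := this
    have g2 : (9 * y + 1) * Real.log (Real.log y) ^ 2 ≤ 20 * y * (Real.log (Real.log y)) ^ 2 :=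
      mul_le_mul_of_nonneg_right (by linarith) hl2.le
    have g3 : 20 * y * (Real.log (Real.log y)) ^ 2 ≤ c * (y * Real.log y) := by
      have := mul_le_mul_of_nonneg_left g1 hy0.le
      linarith
    have g4 : c * (y * Real.log y) * 1 ≤ c * (y * Real.log y) * Real.log (Real.log (Real.log y)) :=
      mul_le_mul_of_nonneg_left e4 (by positivity)
    linarith
  · rw [div_le_iff₀ hl2]
    have g1 : c * Real.log (Real.log (Real.log y)) ≤ Real.log (Real.log y) := e6
    have g2 : Real.log (Real.log y) ≤ Real.log y * (Real.log (Real.log y)) ^ 2 := by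
      have : 1 ≤ Real.log y := e2
      nlinarith
    have g3 : y * Real.log y * (c * Real.log (Real.log (Real.log y))) ≤
        y * Real.log y * (Real.log y * (Real.log (Real.log y)) ^ 2) :=
      mul_le_mul_of_nonneg_left (g1.trans g2) (by positivity)
    linarith

open Classical in
/-- few survivors -/
theorem surv : ∃ c : ℝ, 0 < c ∧ ∀ᶠ y : ℝ in atTop, y + 1 ≤ c * gy y ∧ c * gy y ≤ y * (Real.log y) ^ 2 ∧
    ∃ b : ℕ → ℕ, (((Icc 1 ⌊c * gy y⌋₊).filter (fun k => ∀ p : ℕ, p.Prime → (p : ℝ) ≤ y →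
        ¬ k ≡ b p [MOD p])).card : ℝ) ≤ y / Real.log y := by
  obtain ⟨C, hC, y₀, hs⟩ := Pool.Agent.H256R2.SC.survivors
  refine ⟨1 / C, by positivity, ?_⟩
  filter_upwards [ev_gy (1 / C) (by positivity), eventually_ge_atTop y₀, eventually_ge_atTop (1 : ℝ),
    t1.eventually (eventually_ge_atTop (1 : ℝ)), t2.eventually (eventually_ge_atTop (1 : ℝ)),
    t3.eventually (eventually_ge_atTop (1 : ℝ))] with y e1 e2 e3 e4 e5 e6
  have hg0 : 0 ≤ 1 / C * gy y := by linarith [e1.1]
  refine ⟨by linarith [e1.1], e1.2, ?_⟩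
  obtain ⟨b, -, hb⟩ := hs y e2 ⌊1 / C * gy y⌋₊ (by
    have := Nat.lt_floor_add_one (1 / C * gy y)
    linarith [e1.1]) ((Nat.floor_le hg0).trans e1.2)
  refine ⟨b, le_trans (le_of_eq ?_) (hb.trans ?_)⟩
  · congr!
  have h1 : (⌊1 / C * gy y⌋₊ : ℝ) ≤ 1 / C * gy y := Nat.floor_le hg0
  have h2 : 0 < (Real.log y) ^ 2 * Real.log (Real.log (Real.log y)) := by positivity
  rw [div_le_div_iff₀ h2 (by positivity)]
  have h3 : C * (⌊1 / C * gy y⌋₊ : ℝ) ≤ gy y := by
    calc C * (⌊1 / C * gy y⌋₊ : ℝ) ≤ C * (1 / C * gy y) := mul_le_mul_of_nonneg_left h1 hC.le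
      _ = gy y := by field_simp
  have h4 : gy y * (Real.log (Real.log y)) ^ 2 = y * Real.log y * Real.log (Real.log (Real.log y)) := by
    unfold gy
    field_simp
  have h5 : C * (⌊1 / C * gy y⌋₊ : ℝ) * (Real.log (Real.log y)) ^ 2 ≤ gy y * (Real.log (Real.log y)) ^ 2 :=
    mul_le_mul_of_nonneg_right h3 (by positivity)
  rw [h4] at h5
  have h6 := mul_le_mul_of_nonneg_right h5 (by linarith : 0 ≤ Real.log y)
  calc _ ≤ y * Real.log y * Real.log (Real.log (Real.log y)) * Real.log y := h6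
    _ = _ := by ring

open Classical in
/-- many primes in `(y, 10 y]` -/
theorem many_primes : ∀ᶠ y : ℝ in atTop,
    3 * (y / Real.log y) ≤ (((Icc 1 ⌊10 * y⌋₊).filter (fun p : ℕ => p.Prime ∧ y < (p : ℝ))).card : ℝ) := by
  have h1 := Chebyshev.eventually_primeCounting_le (show (0 : ℝ) < 1 / 10 by norm_num)
  filter_upwards [h1, eventually_ge_atTop (1000 : ℝ), t1.eventually (eventually_ge_atTop (100 : ℝ))] with y e1 e2 e3
  have hy0 : 0 < y := by linarith
  have h2 := Chebyshev.pi_ge' (show 1 < 10 * y by linarith)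
  have hlog10 : Real.log 10 ≤ 3 := by
    have h3 : (10 : ℝ) ≤ Real.exp 3 := by
      have := Real.add_one_le_exp (1 : ℝ)
      have h4 : Real.exp 3 = Real.exp 1 ^ 3 := by rw [← Real.exp_nat_mul]; norm_num
      have h5 := Real.exp_one_gt_d9
      rw [h4]
      have : (2.7 : ℝ) ^ 3 ≤ Real.exp 1 ^ 3 := pow_le_pow_left₀ (by norm_num) (by linarith) 3
      norm_num at this ⊢
      linarith
    calc Real.log 10 ≤ Real.log (Real.exp 3) := Real.log_le_log (by norm_num) h3
      _ = 3 := Real.log_exp 3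
  have hl : Real.log (10 * y) = Real.log 10 + Real.log y := Real.log_mul (by norm_num) hy0.ne'
  have hl0 : 0 < Real.log 10 := Real.log_pos (by norm_num)
  have hlog4 : Real.log 4 ≤ 1.4 := by
    have : Real.log 4 = 2 * Real.log 2 := by
      rw [show (4 : ℝ) = 2 ^ 2 by norm_num, Real.log_pow]
      norm_num
    have := Real.log_two_lt_d9
    linarith
  have h3 : 5 * (y / Real.log y) ≤ (Nat.primeCounting ⌊10 * y⌋₊ : ℝ) := by
    refine le_trans ?_ h2
    rw [hl, mul_div_assoc', div_le_div_iff₀ (by linarith) (by linarith)]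
    have g1 : Real.log (10 * y + 2) ≤ y / 10 := by
      have g2 : Real.log (10 * y + 2) ≤ Real.log (11 * y) := Real.log_le_log (by linarith) (by linarith)
      have g3 : Real.log (11 * y) ≤ 3 + Real.log y := by
        rw [Real.log_mul (by norm_num) hy0.ne']
        have : Real.log 11 ≤ 3 := by
          have h5 := Real.exp_one_gt_d9
          have h4 : Real.exp 3 = Real.exp 1 ^ 3 := by rw [← Real.exp_nat_mul]; norm_num
          have h6 : (11 : ℝ) ≤ Real.exp 3 := by
            rw [h4]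
            have : (2.7 : ℝ) ^ 3 ≤ Real.exp 1 ^ 3 := pow_le_pow_left₀ (by norm_num) (by linarith) 3
            norm_num at this ⊢
            linarith
          calc Real.log 11 ≤ Real.log (Real.exp 3) := Real.log_le_log (by norm_num) h6
            _ = 3 := Real.log_exp 3
        linarith
      have g4 : Real.log y ≤ y / 20 := by
        have g5 := Real.add_one_le_exp (Real.log y / 2)
        have g6 : Real.exp (Real.log y / 2) ^ 2 = y := by
          rw [← Real.exp_nat_mul]
          have : ((2 : ℕ) : ℝ) * (Real.log y / 2) = Real.log y := by push_cast; ring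
          rw [this, Real.exp_log hy0]
        nlinarith
      linarith
    have g7 : (0.69 : ℝ) ≤ Real.log 2 := by have := Real.log_two_gt_d9; linarith
    have g8 : 6.7 * y ≤ (10 * y - 1) * Real.log 2 - Real.log (10 * y + 2) := by nlinarith
    have g9 : 5 * y * (Real.log 10 + Real.log y) ≤ 6.7 * y * Real.log y := by nlinarith
    exact g9.trans (mul_le_mul_of_nonneg_right g8 (by linarith))
  have h4 : (Nat.primeCounting ⌊y⌋₊ : ℝ) ≤ 2 * (y / Real.log y) := by
    refine e1.trans ?_
    rw [mul_div_assoc]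
    apply mul_le_mul_of_nonneg_right (by linarith)
    positivity
  have h5 : (Nat.primeCounting ⌊10 * y⌋₊ : ℝ) ≤ Nat.primeCounting ⌊y⌋₊ +
      ((Icc 1 ⌊10 * y⌋₊).filter (fun p : ℕ => p.Prime ∧ y < (p : ℝ))).card := by
    show ((Nat.count Nat.Prime (⌊10 * y⌋₊ + 1) : ℕ) : ℝ) ≤ ((Nat.count Nat.Prime (⌊y⌋₊ + 1) : ℕ) : ℝ) + _
    rw [Nat.count_eq_card_filter_range, Nat.count_eq_card_filter_range]
    have : (range (⌊10 * y⌋₊ + 1)).filter Nat.Prime ⊆ (range (⌊y⌋₊ + 1)).filter Nat.Prime ∪
        (Icc 1 ⌊10 * y⌋₊).filter (fun p : ℕ => p.Prime ∧ y < (p : ℝ)) := by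
      intro p hp
      rw [mem_filter, mem_range] at hp
      rw [mem_union, mem_filter, mem_filter, mem_range, mem_Icc]
      by_cases h : (p : ℝ) ≤ y
      · exact Or.inl ⟨Nat.lt_succ_of_le (Nat.le_floor h), hp.2⟩
      · exact Or.inr ⟨⟨hp.2.one_lt.le, by omega⟩, hp.2, not_le.1 h⟩
    exact_mod_cast (card_le_card this).trans (card_union_le _ _)
  linarith

end Pool.Agent.Q46.IP
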