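import Pool.Agent.Q46.IP.Base

set_option autoImplicit false

/-! # The centre: an integer in the middle third which avoids the classes modulo the small primes, and is in few of the
classes modulo the other primes -/

namespace Pool.Agent.Q46.IP

open Finset Filter
open Pool.Agent.H469R2.NK (e norm_e e_add)
open Pool.Agent.Q46.MH (FF norm_FF_bound harm_le)

lemma class_card (A N p a : ℕ) (hp : 0 < p) :
    ((Ico A (A + N)).filter (fun t => t % p = a)).card ≤ N / p + 2 := by
  have h1 : ((Ico A (A + N)).filter (fun t => t % p = a)).card ≤ (Icc (A / p) ((A + N) / p)).card := by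
    apply card_le_card_of_injOn (fun t => t / p)
    · intro t ht
      rw [mem_coe, mem_filter, mem_Ico] at ht
      rw [mem_coe, mem_Icc]
      exact ⟨Nat.div_le_div_right ht.1.1, Nat.div_le_div_right ht.1.2.le⟩
    · intro t ht t' ht' h
      rw [mem_coe, mem_filter] at ht ht'
      have h2 := Nat.div_add_mod t p
      have h3 := Nat.div_add_mod t' p
      simp only at h
      rw [ht.2, h] at h2
      rw [ht'.2] at h3
      omega
  rw [Nat.card_Icc] at h1
  have h2 : (A + N) / p ≤ A / p + N / p + 1 := by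
    have h3 : A + N < p * (A / p + N / p + 2) := by
      have h4 := Nat.div_add_mod A p
      have h5 := Nat.div_add_mod N p
      have h6 := Nat.mod_lt A hp
      have h7 := Nat.mod_lt N hp
      nlinarith
    have := Nat.div_lt_of_lt_mul h3
    omega
  generalize N / p = d at *
  generalize A / p = d1 at *
  generalize (A + N) / p = d2 at *
  omega

lemma classes_card (A N p : ℕ) (hp : 0 < p) (O : Finset ℕ) :
    (((Ico A (A + N)).filter (fun t => t % p ∈ O)).card : ℝ) ≤ O.card * ((N : ℝ) * (1 / p) + 2) := by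
  have h1 : (Ico A (A + N)).filter (fun t => t % p ∈ O) ⊆
      O.biUnion (fun a => (Ico A (A + N)).filter (fun t => t % p = a)) := by
    intro t ht
    rw [mem_filter] at ht
    rw [mem_biUnion]
    exact ⟨t % p, ht.2, mem_filter.2 ⟨ht.1, rfl⟩⟩
  have h2 : ((Ico A (A + N)).filter (fun t => t % p ∈ O)).card ≤ O.card * (N / p + 2) := by
    refine (card_le_card h1).trans (card_biUnion_le.trans ?_)
    calc ∑ a ∈ O, ((Ico A (A + N)).filter (fun t => t % p = a)).card ≤ ∑ a ∈ O, (N / p + 2) :=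
          sum_le_sum fun a _ => class_card A N p a hp
      _ = _ := by rw [sum_const, smul_eq_mul]
  have h3 : ((N / p : ℕ) : ℝ) ≤ (N : ℝ) * (1 / p) := by
    rw [mul_one_div]
    exact Nat.cast_div_le
  calc (((Ico A (A + N)).filter (fun t => t % p ∈ O)).card : ℝ) ≤ ((O.card * (N / p + 2) : ℕ) : ℝ) := by exact_mod_cast h2
    _ = O.card * (((N / p : ℕ) : ℝ) + 2) := by push_cast; ring
    _ ≤ _ := mul_le_mul_of_nonneg_left (by linarith) (Nat.cast_nonneg _)

open Classical in
theorem center (D : ℕ) : ∃ κ₀ : ℝ, 0 < κ₀ ∧ κ₀ ≤ 1 ∧ ∃ C : ℝ, 0 < C ∧ ∀ᶠ U : ℕ in atTop,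
    ∀ Om : ℕ → Finset ℕ, (∀ p : ℕ, p.Prime → (Om p).card ≤ D ∧ ∃ a < p, a ∉ Om p) → ∀ Y : ℕ, Y ≤ U →
    ∃ t : ℕ, U ≤ 3 * t ∧ 3 * t ≤ 2 * U + 3 ∧ (∀ p : ℕ, p.Prime → (p : ℝ) ≤ (U : ℝ) ^ κ₀ → t % p ∉ Om p) ∧
      (((range (Y + 1)).filter (fun p => p.Prime ∧ t % p ∈ Om p)).card : ℝ) ≤ C * (Real.log U) ^ (D + 1) := by
  obtain ⟨κ₀, hκ, hκ1, c, hc, hM⟩ := Pool.Agent.Q46.SV.sieve_fam 1 D (1 / 4) (by norm_num) (by norm_num)
  refine ⟨κ₀, hκ, hκ1, 2 * (D + 1) / c, by positivity, ?_⟩
  have e0 := (tendsto_natCast_atTop_atTop (R := ℝ)).eventually hM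
  have e1 := (tendsto_natCast_atTop_atTop (R := ℝ)).eventually
    (Real.tendsto_log_atTop.eventually_ge_atTop (20 : ℝ))
  filter_upwards [e0, e1, eventually_ge_atTop 100] with U hU hlog hU100
  intro Om hOm Y hY
  have hUr : (100 : ℝ) ≤ U := by exact_mod_cast hU100
  set A : ℕ := U / 3 + 1 with hA
  set N : ℕ := U / 3 with hN
  have hN4 : (U : ℝ) / 4 ≤ N := by
    have : U ≤ 4 * N := by omega
    have h2 : (U : ℝ) ≤ 4 * N := by exact_mod_cast this
    linarith
  have hN0 : (0 : ℝ) < N := by linarith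
  have key := hU (fun _ => Om) (fun _ p hp => hOm p hp) ℕ (Ico A (A + N)) (fun i _ => (i : ℤ)) (by
    intro q hq hqU h hh h0
    have hne : h 0 ≠ 0 := by
      intro h1
      apply h0
      funext j
      have : j = 0 := Subsingleton.elim _ _
      rw [this, h1]
      rfl
    have hq0 : (0 : ℝ) < q := by exact_mod_cast hq
    have hh0 : (0 : ℝ) < h 0 := by exact_mod_cast Nat.pos_of_ne_zero hne
    have hh1 : (h 0 : ℝ) < q := by exact_mod_cast hh 0
    have hh2 : (h 0 : ℝ) + 1 ≤ q := by exact_mod_cast hh 0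
    have e2 : ∑ i ∈ Ico A (A + N), e (∑ j : Fin 1, (h j : ℝ) * (((i : ℤ) : ℝ) / q)) = FF A N ((h 0 : ℝ) / q) := by
      unfold FF
      refine sum_congr rfl fun i _ => ?_
      congr 1
      rw [Fin.sum_univ_one]
      push_cast
      ring
    rw [e2]
    have hh1' : (1 : ℝ) ≤ h 0 := by exact_mod_cast Nat.pos_of_ne_zero hne
    refine (norm_FF_bound A N ((h 0 : ℝ) / q) (by positivity) (by rw [div_lt_one hq0]; exact hh1)).trans ?_
    have e3 : 1 / (2 * ((h 0 : ℝ) / q)) ≤ q / 2 := by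
      rw [div_le_div_iff₀ (by positivity) (by norm_num)]
      have : (1 : ℝ) * 2 ≤ q * (2 * ((h 0 : ℝ) / q)) := by
        have : q * (2 * ((h 0 : ℝ) / q)) = 2 * h 0 := by field_simp
        rw [this]
        linarith
      linarith
    have e4 : 1 / (2 * (1 - (h 0 : ℝ) / q)) ≤ q / 2 := by
      have h5 : 1 / (q : ℝ) ≤ 1 - (h 0 : ℝ) / q := by
        rw [div_le_iff₀ hq0]
        have : (1 - (h 0 : ℝ) / q) * q = q - h 0 := by field_simp
        rw [this]
        linarith
      have h6 : (0 : ℝ) < 1 / q := by positivity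
      rw [div_le_div_iff₀ (by nlinarith) (by norm_num)]
      have h7 : (q : ℝ) * (1 / q) = 1 := by field_simp
      nlinarith
    have e5 : (q : ℝ) ≤ (U : ℝ) ^ (1 / 4 : ℝ) := hqU
    rw [Nat.card_Ico, show A + N - A = N by omega]
    have e6 : (U : ℝ) ^ (1 / 4 : ℝ) ≤ (N : ℝ) * (U : ℝ) ^ (-(1 / 4) : ℝ) := by
      have hU0 : (0 : ℝ) < U := by linarith
      rw [Real.rpow_neg hU0.le, ← div_eq_mul_inv, le_div_iff₀ (by positivity), ← Real.rpow_add hU0]
      have e7 : (U : ℝ) ^ (1 / 4 + 1 / 4 : ℝ) = Real.sqrt U := by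
        rw [Real.sqrt_eq_rpow]
        norm_num
      rw [e7]
      have e8 := Real.sq_sqrt hU0.le
      have e9 : (4 : ℝ) ≤ Real.sqrt U := by
        rw [show (4 : ℝ) = Real.sqrt 16 by rw [show (16 : ℝ) = 4 ^ 2 by norm_num, Real.sqrt_sq (by norm_num)]]
        exact Real.sqrt_le_sqrt (by linarith)
      nlinarith [Real.sqrt_nonneg (U : ℝ)]
    linarith)
  rw [Nat.card_Ico, show A + N - A = N by omega] at key
  set G := (Ico A (A + N)).filter (fun i : ℕ => ∀ j : Fin 1, ∀ p : ℕ, p.Prime → (p : ℝ) ≤ (U : ℝ) ^ κ₀ →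
      Pool.Agent.Q46.SV.res (fun (i : ℕ) (_ : Fin 1) => (i : ℤ)) p i j ∉ Om p) with hG
  have hL : 0 < Real.log (U : ℝ) := by linarith
  by_contra hcon
  push Not at hcon
  -- all members of `G` are in many classes
  have h1 : ∀ t ∈ G, 2 * (D + 1) / c * (Real.log U) ^ (D + 1) <
      (((range (Y + 1)).filter (fun p => p.Prime ∧ t % p ∈ Om p)).card : ℝ) := by
    intro t ht
    rw [hG, mem_filter, mem_Ico] at ht
    refine hcon t (by omega) (by omega) ?_
    intro p hp hpU
    have h2 := ht.2 0 p hp hpU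
    have h3 : Pool.Agent.Q46.SV.res (fun (i : ℕ) (_ : Fin 1) => (i : ℤ)) p t 0 = t % p := by
      unfold Pool.Agent.Q46.SV.res
      have : ((t : ℤ) % (p : ℤ)) = ((t % p : ℕ) : ℤ) := by push_cast; rfl
      simp only [this, Int.toNat_natCast]
    rwa [h3] at h2
  have h2 : (G.card : ℝ) * (2 * (D + 1) / c * (Real.log U) ^ (D + 1)) ≤
      ∑ t ∈ G, (((range (Y + 1)).filter (fun p => p.Prime ∧ t % p ∈ Om p)).card : ℝ) := by
    rw [← nsmul_eq_mul, ← sum_const]
    exact sum_le_sum fun t ht => (h1 t ht).le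
  have h3 : ∑ t ∈ G, (((range (Y + 1)).filter (fun p => p.Prime ∧ t % p ∈ Om p)).card : ℝ) ≤
      ∑ p ∈ (range (Y + 1)).filter Nat.Prime, (((Ico A (A + N)).filter (fun t => t % p ∈ Om p)).card : ℝ) := by
    have h4 : ∑ t ∈ G, ((range (Y + 1)).filter (fun p => p.Prime ∧ t % p ∈ Om p)).card ≤
        ∑ t ∈ Ico A (A + N), ((range (Y + 1)).filter (fun p => p.Prime ∧ t % p ∈ Om p)).card :=
      sum_le_sum_of_subset (filter_subset _ _)
    have h5 : ∑ t ∈ Ico A (A + N), ((range (Y + 1)).filter (fun p => p.Prime ∧ t % p ∈ Om p)).card =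
        ∑ p ∈ (range (Y + 1)).filter Nat.Prime, ((Ico A (A + N)).filter (fun t => t % p ∈ Om p)).card := by
      simp only [card_filter]
      rw [sum_comm, sum_filter]
      refine sum_congr rfl fun p _ => ?_
      by_cases hp : p.Prime
      · simp [hp]
      · simp [hp]
    exact_mod_cast h4.trans h5.le
  have hYU : (Y : ℝ) ≤ U := by exact_mod_cast hY
  have h4 : ∑ p ∈ (range (Y + 1)).filter Nat.Prime, (((Ico A (A + N)).filter (fun t => t % p ∈ Om p)).card : ℝ) ≤
      D * (N * (1 + Real.log ((Y + 1 : ℕ) : ℝ)) + 2 * (Y + 1)) := by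
    calc _ ≤ ∑ p ∈ (range (Y + 1)).filter Nat.Prime, (D : ℝ) * ((N : ℝ) * (1 / p) + 2) := by
          refine sum_le_sum fun p hp => ?_
          have hp2 := (mem_filter.1 hp).2
          refine (classes_card A N p hp2.pos (Om p)).trans ?_
          exact mul_le_mul_of_nonneg_right (by exact_mod_cast (hOm p hp2).1) (by positivity)
      _ = (D : ℝ) * ((N : ℝ) * ∑ p ∈ (range (Y + 1)).filter Nat.Prime, 1 / (p : ℝ) +
            2 * ((range (Y + 1)).filter Nat.Prime).card) := by
          rw [← mul_sum, sum_add_distrib, ← mul_sum, sum_const, nsmul_eq_mul]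
          ring
      _ ≤ _ := by
          refine mul_le_mul_of_nonneg_left (add_le_add (mul_le_mul_of_nonneg_left ?_ hN0.le) ?_) (Nat.cast_nonneg _)
          · refine le_trans ?_ (harm_le (Y + 1))
            apply sum_le_sum_of_subset_of_nonneg
            · intro p hp
              rw [mem_filter, mem_range] at hp
              rw [mem_Ico]
              exact ⟨hp.2.one_lt.le, hp.1⟩
            · intro i _ _
              positivity
          · have : ((range (Y + 1)).filter Nat.Prime).card ≤ Y + 1 := (card_filter_le _ _).trans (by simp)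
            have h6 : (((range (Y + 1)).filter Nat.Prime).card : ℝ) ≤ Y + 1 := by exact_mod_cast this
            linarith
  have h5 : Real.log ((Y + 1 : ℕ) : ℝ) ≤ 1 + Real.log U := by
    have h6 : ((Y + 1 : ℕ) : ℝ) ≤ Real.exp 1 * U := by
      have := Real.add_one_le_exp (1 : ℝ)
      push_cast
      nlinarith
    calc Real.log ((Y + 1 : ℕ) : ℝ) ≤ Real.log (Real.exp 1 * U) := Real.log_le_log (by positivity) h6
      _ = 1 + Real.log U := by rw [Real.log_mul (Real.exp_pos 1).ne' (by linarith), Real.log_exp]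
  have h6 : (D : ℝ) * (N * (1 + Real.log ((Y + 1 : ℕ) : ℝ)) + 2 * (Y + 1)) ≤ D * (2 * (N * Real.log U)) := by
    apply mul_le_mul_of_nonneg_left _ (Nat.cast_nonneg _)
    have h7 : (N : ℝ) * (1 + Real.log ((Y + 1 : ℕ) : ℝ)) ≤ N * (2 + Real.log U) :=
      mul_le_mul_of_nonneg_left (by linarith) hN0.le
    have h8 : 2 * ((Y : ℝ) + 1) ≤ N * 10 := by linarith
    nlinarith
  have h7 : c * N / (Real.log U) ^ (D * 1) ≤ G.card := key
  rw [mul_one] at h7
  have h8 : (c * N / (Real.log U) ^ D) * (2 * (D + 1) / c * (Real.log U) ^ (D + 1)) =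
      2 * (D + 1) * (N * Real.log U) := by
    rw [pow_succ]
    field_simp
  have h9 : (c * N / (Real.log U) ^ D) * (2 * (D + 1) / c * (Real.log U) ^ (D + 1)) ≤
      (G.card : ℝ) * (2 * (D + 1) / c * (Real.log U) ^ (D + 1)) :=
    mul_le_mul_of_nonneg_right h7 (by positivity)
  have h10 : 0 < (N : ℝ) * Real.log U := by positivity
  linarith

end Pool.Agent.Q46.IP
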