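import Pool.Agent.Q46.IP.Center
import Pool.Agent.H256R2.SC.V1
import Mathlib.Combinatorics.Hall.Basic

set_option autoImplicit false

/-! # The covering: a class in which the polynomials are prime to the modulus and everything else has a small prime factor -/

namespace Pool.Agent.Q46.IP

open Finset Filter Polynomial
open Pool.Agent.Q46.SL (roots_card eval_mod eval_bound)

lemma ev_bad (κ₀ C : ℝ) (hκ : 0 < κ₀) (hκ1 : κ₀ ≤ 1) (hC : 0 < C) (D : ℕ) : ∀ᶠ y : ℝ in atTop, ∀ U : ℝ, 1 ≤ U →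
    U ≤ y * (Real.log y) ^ 2 → C * (Real.log U) ^ (D + 1) * (U * U ^ (-κ₀) + 2) ≤ y / Real.log y := by
  have h1 := (isLittleO_log_rpow_atTop (show (0 : ℝ) < κ₀ / (D + 4) by positivity)).def
    (show (0 : ℝ) < 1 / (3 * C * 3 ^ (D + 1) + 1) by positivity)
  filter_upwards [h1, eventually_ge_atTop (3 : ℝ), t1.eventually (eventually_ge_atTop (1 : ℝ)),
    Real.isLittleO_log_id_atTop.def (show (0 : ℝ) < 1 by norm_num)] with y e1 e2 e3 e4
  intro U hU1 hU
  have hy0 : 0 < y := by linarith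
  have hly : 0 < Real.log y := by linarith
  rw [Real.norm_eq_abs, Real.norm_eq_abs, abs_of_nonneg hly.le, abs_of_nonneg (Real.rpow_nonneg hy0.le _)] at e1
  rw [Real.norm_eq_abs, Real.norm_eq_abs, abs_of_nonneg hly.le, one_mul] at e4
  simp only [id] at e4
  rw [abs_of_pos hy0] at e4
  have hlU : Real.log U ≤ 3 * Real.log y := by
    calc Real.log U ≤ Real.log (y * (Real.log y) ^ 2) := Real.log_le_log (by linarith) hU
      _ ≤ Real.log (y * y ^ 2) := Real.log_le_log (by positivity)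
          (mul_le_mul_of_nonneg_left (pow_le_pow_left₀ hly.le e4 2) hy0.le)
      _ = 3 * Real.log y := by
          rw [← pow_succ', Real.log_pow]
          norm_num
  have hlU0 : 0 ≤ Real.log U := Real.log_nonneg hU1
  have h2 : (Real.log U) ^ (D + 1) ≤ 3 ^ (D + 1) * (Real.log y) ^ (D + 1) := by
    rw [← mul_pow]
    exact pow_le_pow_left₀ hlU0 hlU _
  have h3 : U * U ^ (-κ₀) + 2 ≤ 3 * (y * (Real.log y) ^ 2 * y ^ (-κ₀)) := by
    have e5 : U * U ^ (-κ₀) = U ^ (1 - κ₀) := by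
      rw [show (1 - κ₀) = 1 + -κ₀ by ring, Real.rpow_add (by linarith), Real.rpow_one]
    have e6 : 1 ≤ U ^ (1 - κ₀) := Real.one_le_rpow hU1 (by linarith)
    have e8 : (1 : ℝ) ≤ (Real.log y) ^ 2 := one_le_pow₀ e3
    have e7 : U ^ (1 - κ₀) ≤ y * (Real.log y) ^ 2 * y ^ (-κ₀) := by
      calc U ^ (1 - κ₀) ≤ (y * (Real.log y) ^ 2) ^ (1 - κ₀) :=
            Real.rpow_le_rpow (by linarith) hU (by linarith)
        _ = y ^ (1 - κ₀) * ((Real.log y) ^ 2) ^ (1 - κ₀) := Real.mul_rpow hy0.le (by positivity)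
        _ ≤ y ^ (1 - κ₀) * ((Real.log y) ^ 2) ^ (1 : ℝ) := by
            apply mul_le_mul_of_nonneg_left _ (by positivity)
            exact Real.rpow_le_rpow_of_exponent_le e8 (by linarith)
        _ = _ := by
            rw [Real.rpow_one, show (1 - κ₀) = 1 + -κ₀ by ring, Real.rpow_add hy0, Real.rpow_one]
            ring
    rw [e5]
    linarith
  have h4 : 3 * C * 3 ^ (D + 1) * (Real.log y) ^ (D + 4) ≤ y ^ κ₀ := by
    have e5 : (Real.log y) ^ (D + 4) ≤ (1 / (3 * C * 3 ^ (D + 1) + 1)) ^ (D + 4) * y ^ κ₀ := by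
      calc (Real.log y) ^ (D + 4) ≤ (1 / (3 * C * 3 ^ (D + 1) + 1) * y ^ (κ₀ / (D + 4))) ^ (D + 4) :=
            pow_le_pow_left₀ hly.le e1 _
        _ = _ := by
            rw [mul_pow]
            congr 1
            rw [← Real.rpow_natCast, ← Real.rpow_mul hy0.le]
            congr 1
            push_cast
            field_simp
    have e6 : (1 / (3 * C * 3 ^ (D + 1) + 1)) ^ (D + 4) ≤ 1 / (3 * C * 3 ^ (D + 1) + 1) := by
      apply pow_le_of_le_one (by positivity) _ (by omega)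
      rw [div_le_one (by positivity)]
      have : 0 < 3 * C * 3 ^ (D + 1) := by positivity
      linarith
    have e7 : 0 < y ^ κ₀ := by positivity
    have e9 : 0 < 3 * C * 3 ^ (D + 1) := by positivity
    calc 3 * C * 3 ^ (D + 1) * (Real.log y) ^ (D + 4) ≤
        3 * C * 3 ^ (D + 1) * (1 / (3 * C * 3 ^ (D + 1) + 1) * y ^ κ₀) := by
          apply mul_le_mul_of_nonneg_left _ e9.le
          exact e5.trans (mul_le_mul_of_nonneg_right e6 e7.le)
      _ = (3 * C * 3 ^ (D + 1) / (3 * C * 3 ^ (D + 1) + 1)) * y ^ κ₀ := by ring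
      _ ≤ 1 * y ^ κ₀ := by
          apply mul_le_mul_of_nonneg_right _ e7.le
          rw [div_le_one (by positivity)]
          linarith
      _ = _ := one_mul _
  have h5 : C * (Real.log U) ^ (D + 1) * (U * U ^ (-κ₀) + 2) ≤
      (C * (3 ^ (D + 1) * (Real.log y) ^ (D + 1))) * (3 * (y * (Real.log y) ^ 2 * y ^ (-κ₀))) :=
    mul_le_mul (mul_le_mul_of_nonneg_left h2 hC.le) h3 (by positivity) (by positivity)
  refine h5.trans ?_
  rw [le_div_iff₀ hly]
  have h6 : C * (3 ^ (D + 1) * Real.log y ^ (D + 1)) * (3 * (y * Real.log y ^ 2 * y ^ (-κ₀))) * Real.log y =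
      (3 * C * 3 ^ (D + 1) * (Real.log y) ^ (D + 4)) * (y * y ^ (-κ₀)) := by ring
  rw [h6]
  calc _ ≤ y ^ κ₀ * (y * y ^ (-κ₀)) := mul_le_mul_of_nonneg_right h4 (by positivity)
    _ = y := by
        rw [Real.rpow_neg hy0.le]
        field_simp

/-- divisibility of the values depends only on the class -/
lemma eval_congr (f : ℤ[X]) (p x y : ℤ) (h : p ∣ x - y) : p ∣ f.eval x ↔ p ∣ f.eval y := by
  have h1 : x - y ∣ f.eval x - f.eval y := sub_dvd_eval_sub _ _ _
  have h2 := h.trans h1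
  constructor
  · intro h3
    have := dvd_sub h3 h2
    simpa using this
  · intro h3
    have := dvd_add h2 h3
    simpa using this

/-- the number of large prime divisors -/
lemma large_divisors (F : Finset ℕ) (y : ℝ) (hy : 1 < y) (hF : ∀ q ∈ F, q.Prime ∧ y < (q : ℝ)) (N : ℤ) (hN : N ≠ 0) (m : ℕ)
    (hNm : |(N : ℝ)| ≤ y ^ m) : (F.filter (fun q : ℕ => (q : ℤ) ∣ N)).card ≤ m := by
  set G := F.filter (fun q : ℕ => (q : ℤ) ∣ N) with hG
  have h1 : (∏ q ∈ G, q) ∣ N.natAbs := by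
    apply Finset.prod_primes_dvd
    · intro q hq
      exact (hF q (mem_filter.1 hq).1).1.prime
    · intro q hq
      exact Int.natCast_dvd.1 (mem_filter.1 hq).2
  have h2 : ((∏ q ∈ G, q : ℕ) : ℝ) ≤ y ^ m := by
    have h3 := Nat.le_of_dvd (Int.natAbs_pos.2 hN) h1
    have h4 : ((∏ q ∈ G, q : ℕ) : ℝ) ≤ (N.natAbs : ℝ) := by exact_mod_cast h3
    rw [Nat.cast_natAbs, Int.cast_abs] at h4
    exact h4.trans hNm
  have h3 : y ^ G.card ≤ ((∏ q ∈ G, q : ℕ) : ℝ) := by
    push_cast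
    rw [← prod_const]
    exact prod_le_prod (fun _ _ => by linarith) fun q hq => (hF q (mem_filter.1 hq).1).2.le
  have h4 := h3.trans h2
  by_contra hc
  push Not at hc
  have h5 : y ^ m < y ^ G.card := pow_lt_pow_right₀ hy hc
  linarith

end Pool.Agent.Q46.IP
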