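import Pool.Agent.Q46.IP.Main
import Pool.Agent.Q46.MH.Crit

set_option autoImplicit false

/-! # The criterion: almost prime values of polynomials in the middle of long gaps -/

namespace Pool.Agent.Q46.IP

open Finset Filter Polynomial
open Pool.Agent.H469R2.NK (e norm_e e_add)
open Pool.Agent.TH915.PW (e_int sum_char)
open Pool.Agent.Q46.SL (CS Cls Sft cs lg PE Almost almost_of eval_bound roots_card)
open Pool.Agent.Q46.MH (classJ_le e_zero')

/-- the sum over the vectors of residues -/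
lemma ind {r : ℕ} (q : ℕ) (hq0 : 0 < q) (w : Fin r → ℤ) :
    ∑ h ∈ Fintype.piFinset (fun _ : Fin r => range q), e (∑ j, (h j : ℝ) * (w j / q)) =
      if ∀ j, (q : ℤ) ∣ w j then (q : ℂ) ^ r else 0 := by
  classical
  have h1 : ∀ m : ℤ, ∑ h ∈ range q, e (m * ((h : ℝ) / q)) = if (q : ℤ) ∣ m then (q : ℂ) else 0 := by
    intro m
    split_ifs with hm
    · obtain ⟨t, rfl⟩ := hm
      have hq' : (0 : ℝ) < q := by exact_mod_cast hq0
      have : ∀ h ∈ range q, e (((q : ℤ) * t : ℤ) * ((h : ℝ) / q)) = 1 := by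
        intro h _
        have e1 : (((q : ℤ) * t : ℤ) : ℝ) * ((h : ℝ) / q) = ((t * h : ℤ) : ℝ) := by
          push_cast
          field_simp
        rw [e1]
        exact e_int _
      rw [sum_congr rfl this]
      simp
    · exact sum_char q hq0 m hm
  have e1 : ∑ h ∈ Fintype.piFinset (fun _ : Fin r => range q), e (∑ j, (h j : ℝ) * (w j / q)) =
      ∑ h ∈ Fintype.piFinset (fun _ : Fin r => range q), ∏ j, e ((w j : ℝ) * ((h j : ℝ) / q)) := by
    refine sum_congr rfl fun h _ => ?_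
    rw [Pool.Agent.Y961.JR.e_sum]
    refine prod_congr rfl fun j _ => ?_
    congr 1
    ring
  rw [e1, ← Finset.prod_univ_sum (fun _ => range q) (fun j h => e ((w j : ℝ) * ((h : ℝ) / q)))]
  simp_rw [h1]
  split_ifs with hw
  · rw [prod_congr rfl (fun j _ => if_pos (hw j))]
    simp
  · push Not at hw
    obtain ⟨j, hj⟩ := hw
    exact prod_eq_zero (mem_univ j) (if_neg hj)

open Classical in
/-- exponential sums over the members of a class, divided by the modulus -/
lemma class_sum {ι : Type} {r : ℕ} (s : Finset ι) (v : ι → Fin r → ℤ) (P : ℕ) (hP : 0 < P) (b : ℤ) (q : ℕ) (hq : 0 < q) (E : ℝ)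
    (hE : ∀ h : Fin r → ℕ, (∀ j, h j < q * P) → h ≠ 0 →
      ‖∑ i ∈ s, e (∑ j, (h j : ℝ) * (v i j / (q * P : ℕ)))‖ ≤ E)
    (h : Fin r → ℕ) (hh : ∀ j, h j < q) (h0 : h ≠ 0) :
    ‖∑ i ∈ s.filter (fun i => ∀ j, (P : ℤ) ∣ v i j - b), e (∑ j, (h j : ℝ) * (((v i j - b) / P : ℤ) / q))‖ ≤ E := by
  have hPr : (0 : ℝ) < P := by exact_mod_cast hP
  have hqr : (0 : ℝ) < q := by exact_mod_cast hq
  have hPc : (P : ℂ) ≠ 0 := by exact_mod_cast hP.ne'
  have h1 : ∀ i, (if ∀ j, (P : ℤ) ∣ v i j - b then e (∑ j, (h j : ℝ) * (((v i j - b) / P : ℤ) / q)) else 0) =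
      ((P : ℂ) ^ r)⁻¹ * ∑ k ∈ Fintype.piFinset (fun _ : Fin r => range P),
        (e (-∑ j, ((h j : ℝ) + q * k j) * (b / (q * P : ℕ))) * e (∑ j, ((h j + q * k j : ℕ) : ℝ) * (v i j / (q * P : ℕ)))) := by
    intro i
    have e1 : ∀ k : Fin r → ℕ, e (-∑ j, ((h j : ℝ) + q * k j) * (b / (q * P : ℕ))) *
        e (∑ j, ((h j + q * k j : ℕ) : ℝ) * (v i j / (q * P : ℕ))) =
        e (∑ j, (h j : ℝ) * (((v i j : ℝ) - b) / (q * P : ℕ))) * e (∑ j, (k j : ℝ) * (((v i j - b : ℤ) : ℝ) / P)) := by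
      intro k
      rw [← e_add, ← e_add]
      congr 1
      rw [← sum_neg_distrib, ← sum_add_distrib, ← sum_add_distrib]
      refine sum_congr rfl fun j _ => ?_
      push_cast
      field_simp
      ring
    rw [sum_congr rfl (fun k _ => e1 k), ← mul_sum, ind P hP (fun j => v i j - b)]
    split_ifs with hd
    · have e2 : ∑ j, (h j : ℝ) * (((v i j : ℝ) - b) / (q * P : ℕ)) = ∑ j, (h j : ℝ) * (((v i j - b) / P : ℤ) / q) := by
        refine sum_congr rfl fun j _ => ?_
        obtain ⟨m, hm⟩ := hd j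
        have e3 : (v i j - b) / (P : ℤ) = m := by
          rw [hm]
          exact Int.mul_ediv_cancel_left _ (by exact_mod_cast hP.ne')
        rw [e3]
        have e4 : (v i j : ℝ) - b = P * m := by exact_mod_cast hm
        rw [e4]
        push_cast
        field_simp
      rw [e2]
      field_simp
    · simp
  rw [sum_filter, sum_congr rfl (fun i _ => h1 i), ← mul_sum, sum_comm, norm_mul, norm_inv, norm_pow, Complex.norm_natCast]
  have h2 : ‖∑ k ∈ Fintype.piFinset (fun _ : Fin r => range P), ∑ i ∈ s,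
      (e (-∑ j, ((h j : ℝ) + q * k j) * (b / (q * P : ℕ))) * e (∑ j, ((h j + q * k j : ℕ) : ℝ) * (v i j / (q * P : ℕ))))‖ ≤
      (P : ℝ) ^ r * E := by
    refine (norm_sum_le _ _).trans ?_
    calc _ ≤ ∑ k ∈ Fintype.piFinset (fun _ : Fin r => range P), E := by
          refine sum_le_sum fun k hk => ?_
          rw [← mul_sum, norm_mul, norm_e, one_mul]
          rw [Fintype.mem_piFinset] at hk
          apply hE (fun j => h j + q * k j)
          · intro j
            have h3 := hh j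
            have h4 := mem_range.1 (hk j)
            have h5 : q * (k j + 1) ≤ q * P := Nat.mul_le_mul_left _ h4
            rw [mul_add] at h5
            omega
          · intro h3
            apply h0
            funext j
            have h4 := congrFun h3 j
            simp only [Pi.zero_apply] at h4
            show h j = 0
            omega
      _ = (P : ℝ) ^ r * E := by
          rw [sum_const, Fintype.card_piFinset, nsmul_eq_mul]
          simp
  calc ((P : ℝ) ^ r)⁻¹ * _ ≤ ((P : ℝ) ^ r)⁻¹ * ((P : ℝ) ^ r * E) := mul_le_mul_of_nonneg_left h2 (by positivity)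
    _ = E := by field_simp

/-- the scale: Rankin's order of magnitude `log M log₂ M log₄ M / (log₃ M)²` -/
noncomputable def GG (M : ℝ) : ℝ :=
  Real.log M * Real.log (Real.log M) * Real.log (Real.log (Real.log (Real.log M))) /
    (Real.log (Real.log (Real.log M))) ^ 2

lemma GG_eq (M : ℝ) : GG M = gy (Real.log M) := rfl

/-- change of the scale -/
lemma gy_scale (θ : ℝ) (hθ : 0 < θ) (hθ1 : θ ≤ 1) : ∀ᶠ L : ℝ in atTop, θ / 4 * gy L ≤ gy (θ * L) := by
  filter_upwards [eventually_ge_atTop (1 : ℝ), t1.eventually (eventually_ge_atTop (max 1 (2 * |Real.log θ|))),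
    t2.eventually (eventually_ge_atTop (max 1 (2 * Real.log 2))), t3.eventually (eventually_ge_atTop (max 1 (2 * Real.log 2)))]
    with L e1 e2 e3 e4
  have hL0 : 0 < L := by linarith
  have a1 : 1 ≤ Real.log L := (le_max_left _ _).trans e2
  have a2 : 2 * |Real.log θ| ≤ Real.log L := (le_max_right _ _).trans e2
  have b1 : 1 ≤ Real.log (Real.log L) := (le_max_left _ _).trans e3
  have b2 : 2 * Real.log 2 ≤ Real.log (Real.log L) := (le_max_right _ _).trans e3
  have c1 : 1 ≤ Real.log (Real.log (Real.log L)) := (le_max_left _ _).trans e4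
  have c2 : 2 * Real.log 2 ≤ Real.log (Real.log (Real.log L)) := (le_max_right _ _).trans e4
  have hlog2 : 0 < Real.log 2 := Real.log_pos (by norm_num)
  have d1 : Real.log (θ * L) = Real.log θ + Real.log L := Real.log_mul hθ.ne' hL0.ne'
  have d2 : Real.log L / 2 ≤ Real.log (θ * L) := by
    rw [d1]
    have := neg_abs_le (Real.log θ)
    linarith
  have d3 : Real.log (θ * L) ≤ Real.log L := Real.log_le_log (by positivity) (by nlinarith)
  have f1 : Real.log (Real.log L) / 2 ≤ Real.log (Real.log (θ * L)) := by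
    calc Real.log (Real.log L) / 2 ≤ Real.log (Real.log L) - Real.log 2 := by linarith
      _ = Real.log (Real.log L / 2) := by rw [Real.log_div (by linarith) (by norm_num)]
      _ ≤ _ := Real.log_le_log (by linarith) d2
  have f2 : Real.log (Real.log (θ * L)) ≤ Real.log (Real.log L) := Real.log_le_log (by linarith) d3
  have g1 : Real.log (Real.log (Real.log L)) / 2 ≤ Real.log (Real.log (Real.log (θ * L))) := by
    calc Real.log (Real.log (Real.log L)) / 2 ≤ Real.log (Real.log (Real.log L)) - Real.log 2 := by linarith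
      _ = Real.log (Real.log (Real.log L) / 2) := by rw [Real.log_div (by linarith) (by norm_num)]
      _ ≤ _ := Real.log_le_log (by linarith) f1
  have h0 : 0 < Real.log (Real.log (θ * L)) := by linarith
  unfold gy
  rw [mul_div_assoc', div_le_div_iff₀ (by positivity) (by positivity)]
  have h1 : (Real.log (Real.log (θ * L))) ^ 2 ≤ (Real.log (Real.log L)) ^ 2 := pow_le_pow_left₀ h0.le f2 2
  have h2 : θ / 4 * (L * Real.log L * Real.log (Real.log (Real.log L))) ≤
      θ * L * Real.log (θ * L) * Real.log (Real.log (Real.log (θ * L))) := by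
    have h3 := mul_le_mul d2 g1 (by positivity) (by linarith)
    have h4 := mul_le_mul_of_nonneg_left h3 (by positivity : 0 ≤ θ * L)
    calc _ = θ * L * (Real.log L / 2 * (Real.log (Real.log (Real.log L)) / 2)) := by ring
      _ ≤ _ := h4
      _ = _ := by ring
  exact mul_le_mul h2 h1 (by positivity) (by
    have : 0 ≤ Real.log (Real.log (Real.log (θ * L))) := by linarith
    have : 0 ≤ Real.log (θ * L) := by linarith
    positivity)

/-- the values of the polynomials at `x` are almost primes and all the other integers near `x` have a prime factor `≤ log M` -/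
def Lone {n D : ℕ} (B : ℕ) (θ : PE n 0 D) (κ M : ℝ) (x : ℤ) : Prop :=
  0 < x ∧ ((∀ j i, |(((θ.f j).coeff i : ℤ) : ℝ)| ≤ (Real.log M) ^ B) → (x : ℝ) ≤ M →
    (∀ j, Almost (M ^ κ) ⌊((D : ℝ) + 2) / κ⌋₊ ((θ.f j).eval x)) ∧
      ∀ i : ℤ, |(i : ℝ)| ≤ κ * GG M → (∀ j, (θ.f j).eval (-i) ≠ 0) →
        ∃ q : ℕ, q.Prime ∧ (q : ℝ) ≤ Real.log M ∧ (q : ℤ) ∣ x + i)

open Classical in
/-- **the criterion for `Lone`** -/
theorem csL (n D B : ℕ) (δ : ℝ) (hδ : 0 < δ) (r : ℕ) :
    CS (Lone B : PE n 0 D → ℝ → ℝ → ℤ → Prop) (fun M => M ^ (-(δ * r))) r := by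
  intro η h0 h1
  obtain ⟨c0, hc0, hcov⟩ := cover n D (B + 1)
  set θ₀ : ℝ := min (η / (48 * (r + 1))) (min (δ / 24) (1 / 10)) with hθ₀
  have hr0 : (0 : ℝ) ≤ r := Nat.cast_nonneg r
  have hθpos : 0 < θ₀ := lt_min (by positivity) (lt_min (by positivity) (by norm_num))
  have hθη : θ₀ ≤ η / (48 * (r + 1)) := min_le_left _ _
  have hθδ : θ₀ ≤ δ / 24 := (min_le_right _ _).trans (min_le_left _ _)
  have hθ10 : θ₀ ≤ 1 / 10 := (min_le_right _ _).trans (min_le_right _ _)
  have hθη2 : 6 * θ₀ * (r + 1) ≤ η / 8 := by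
    have : 6 * θ₀ * (r + 1) ≤ 6 * (η / (48 * (r + 1))) * (r + 1) :=
      mul_le_mul_of_nonneg_right (mul_le_mul_of_nonneg_left hθη (by norm_num)) (by linarith)
    calc _ ≤ _ := this
      _ = η / 8 := by field_simp; norm_num
  have hθη3 : 6 * θ₀ ≤ η / 8 := by nlinarith
  obtain ⟨κ₁, hκ₁, c, hc, hM⟩ := cs D r (η / 4) (by positivity) (by linarith)
  set κ : ℝ := min κ₁ (c0 * θ₀ / 4) with hκd
  have hκ : 0 < κ := lt_min hκ₁ (by positivity)
  have hκκ₁ : κ ≤ κ₁ := min_le_left _ _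
  have hκc : κ ≤ c0 * θ₀ / 4 := min_le_right _ _
  refine ⟨κ, hκ, min (c / 2) 1, by positivity, ?_⟩
  have tl : Tendsto (fun M : ℝ => θ₀ * Real.log M) atTop atTop := Real.tendsto_log_atTop.const_mul_atTop hθpos
  have hlogpow : ∀ᶠ M : ℝ in atTop, (Real.log M) ^ (D * r) ≤ M ^ (δ / 2) := by
    have := (isLittleO_log_rpow_atTop (show (0 : ℝ) < δ / 2 / (D * r + 1 : ℕ) by positivity)).def (show (0 : ℝ) < 1 by norm_num)
    filter_upwards [this, eventually_ge_atTop (Real.exp 1)] with M hM hM1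
    have hM0 : 0 < M := (Real.exp_pos 1).trans_le hM1
    have hl1 : 1 ≤ Real.log M := by
      rw [Real.le_log_iff_exp_le hM0]
      exact hM1
    rw [Real.norm_eq_abs, Real.norm_eq_abs, abs_of_nonneg (by linarith), abs_of_nonneg (Real.rpow_nonneg hM0.le _), one_mul] at hM
    calc (Real.log M) ^ (D * r) ≤ (Real.log M) ^ (D * r + 1) := pow_le_pow_right₀ hl1 (by omega)
      _ ≤ (M ^ (δ / 2 / (D * r + 1 : ℕ))) ^ (D * r + 1) := pow_le_pow_left₀ (by linarith) hM _
      _ = M ^ (δ / 2) := by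
          rw [← Real.rpow_natCast, ← Real.rpow_mul hM0.le]
          congr 1
          field_simp
  filter_upwards [hM, tl.eventually hcov, eventually_gt_atTop (1 : ℝ), (tendsto_rpow_atTop hκ).eventually_ge_atTop 2,
    Real.tendsto_log_atTop.eventually (gy_scale θ₀ hθpos (by linarith)), eventually_ge_atTop ((D : ℝ) + 1),
    Real.tendsto_log_atTop.eventually (eventually_ge_atTop (1 / θ₀ ^ (B + 1))), hlogpow,
    (tendsto_rpow_atTop (show (0 : ℝ) < η / 4 by positivity)).eventually_ge_atTop 4,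
    Real.tendsto_log_atTop.eventually (eventually_ge_atTop (1 : ℝ)),
    (isLittleO_log_rpow_atTop (show (0 : ℝ) < 1 / (B + 1 : ℕ) by positivity)).def (show (0 : ℝ) < 1 by norm_num)]
    with M hM hcM hM1 hM2 hgs hMD hBθ hlp hM4 hlM1 hlB
  obtain ⟨-, hM⟩ := hM
  have hM0 : 0 < M := by linarith
  have hmono : ∀ x y : ℝ, x ≤ y → M ^ x ≤ M ^ y := fun x y h => Real.rpow_le_rpow_of_exponent_le hM1.le h
  refine ⟨by positivity, ?_⟩
  intro θ ι s v hv hS
  have hM1' : 1 ≤ M := hM1.le
  have hv0 : ∀ i ∈ s, ∀ j, 0 < v i j := by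
    intro i hi j
    have h2 : (0 : ℝ) < v i j := lt_of_lt_of_le (Real.rpow_pos_of_pos hM0 _) (hv i hi j)
    exact_mod_cast h2
  have hδr : M ^ (-(δ * r)) ≤ 1 := Real.rpow_le_one_of_one_le_of_nonpos hM1' (by nlinarith)
  -- the case of large coefficients is trivial
  by_cases hcoef : ∀ j i, |(((θ.f j).coeff i : ℤ) : ℝ)| ≤ (Real.log M) ^ B
  swap
  · have h2 : s.filter (fun i => ∀ j, Lone B θ κ M (v i j)) = s := by
      apply filter_true_of_mem
      intro i hi j
      exact ⟨hv0 i hi j, fun h => absurd h hcoef⟩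
    rw [h2]
    have h3 : min (c / 2) 1 * (s.card : ℝ) ≤ 1 * s.card := mul_le_mul_of_nonneg_right (min_le_right _ _) (Nat.cast_nonneg _)
    calc min (c / 2) 1 * (s.card : ℝ) * M ^ (-(δ * r)) ≤ 1 * s.card * 1 :=
          mul_le_mul h3 hδr (by positivity) (by positivity)
      _ = _ := by ring
  -- the modulus
  have hadm : ∀ p : ℕ, p.Prime → ∃ a < p, ∀ j, ¬ (p : ℤ) ∣ (θ.f j).eval (a : ℤ) := by
    intro p hp
    obtain ⟨-, a, ha, -, h2⟩ := θ.adm p hp
    exact ⟨a, ha, h2⟩
  obtain ⟨P, b', hP0, hPle, hPf, hPc⟩ := hcM θ.f θ.deg hadm (by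
    intro j i
    refine (hcoef j i).trans ?_
    have h2 : (Real.log M) ^ B * 1 ≤ (Real.log M) ^ B * (θ₀ ^ (B + 1) * Real.log M) := by
      apply mul_le_mul_of_nonneg_left _ (by positivity)
      rw [div_le_iff₀ (by positivity)] at hBθ
      linarith
    calc (Real.log M) ^ B = (Real.log M) ^ B * 1 := by ring
      _ ≤ _ := h2
      _ = (θ₀ * Real.log M) ^ (B + 1) := by ring)
  have hPM : (P : ℝ) ≤ M ^ (6 * θ₀) := by
    refine hPle.trans (le_of_eq ?_)
    rw [Real.rpow_def_of_pos hM0]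
    congr 1
    ring
  have hPz : (0 : ℤ) < P := by exact_mod_cast hP0
  have hPr : (0 : ℝ) < P := by exact_mod_cast hP0
  -- the residue
  obtain ⟨b, hb0, hbP, hbb⟩ : ∃ b : ℤ, 0 ≤ b ∧ b < P ∧ (P : ℤ) ∣ b - b' :=
    ⟨b' % P, Int.emod_nonneg _ hPz.ne', Int.emod_lt_of_pos _ hPz, by
      have := Int.dvd_self_sub_emod (x := b') (m := (P : ℤ))
      have h2 := (dvd_neg (a := (P : ℤ))).2 this
      rwa [neg_sub] at h2⟩
  have hPf' : ∀ p : ℕ, p.Prime → p ∣ P → ∀ x : ℤ, (P : ℤ) ∣ x - b → ∀ j, ¬ (p : ℤ) ∣ (θ.f j).eval x := by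
    intro p hp hpP x hx j hd
    have h2 : (p : ℤ) ∣ x - b' := by
      have h3 := (Int.natCast_dvd_natCast.2 hpP).trans (dvd_add hx hbb)
      have h4 : x - b + (b - b') = x - b' := by ring
      rwa [h4] at h3
    exact hPf p hp hpP j ((eval_congr _ _ _ _ h2).1 hd)
  -- the classes
  have hOm : ∀ q : ℕ, q.Prime →
      ((range q).filter (fun a : ℕ => ∃ j, (q : ℤ) ∣ (θ.f j).eval ((P : ℤ) * (a : ℤ) + b))).card ≤ D ∧
      ∃ a < q, a ∉ (range q).filter (fun a : ℕ => ∃ j, (q : ℤ) ∣ (θ.f j).eval ((P : ℤ) * (a : ℤ) + b)) := by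
    intro q hq
    have hne : ∃ a < q, ∀ j, ¬ (q : ℤ) ∣ (θ.f j).eval ((P : ℤ) * (a : ℤ) + b) := by
      by_cases hqP : q ∣ P
      · refine ⟨0, hq.pos, fun j => hPf' q hq hqP _ ?_ j⟩
        simp
      · obtain ⟨a, ha, haf⟩ := hadm q hq
        have hcop : IsCoprime (P : ℤ) (q : ℤ) := by
          rw [Nat.isCoprime_iff_coprime]
          exact ((Nat.Prime.coprime_iff_not_dvd hq).2 hqP).symm
        obtain ⟨u, w, huw⟩ := hcop
        have hqz : (0 : ℤ) < q := by exact_mod_cast hq.pos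
        refine ⟨((u * (a - b)) % (q : ℤ)).toNat, ?_, ?_⟩
        · have h2 := Int.emod_lt_of_pos (u * (a - b)) hqz
          have h3 := Int.emod_nonneg (u * ((a : ℤ) - b)) hqz.ne'
          omega
        · intro j hd
          rw [Int.toNat_of_nonneg (Int.emod_nonneg _ hqz.ne')] at hd
          apply haf j
          refine (eval_congr (θ.f j) q _ _ ?_).1 hd
          have h2 := Int.dvd_self_sub_emod (x := u * ((a : ℤ) - b)) (m := (q : ℤ))
          have h3 : (P : ℤ) * ((u * (a - b)) % (q : ℤ)) + b - a =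
              -(P * (u * (a - b) - (u * (a - b)) % (q : ℤ))) - q * (w * (a - b)) := by
            linear_combination ((a : ℤ) - b) * huw
          rw [h3]
          exact dvd_sub (dvd_neg.2 (dvd_mul_of_dvd_right h2 _)) (dvd_mul_right _ _)
    have hev : ∀ (j : Fin n) (x : ℤ), ((θ.f j).comp (C (P : ℤ) * X + C b)).eval x = (θ.f j).eval ((P : ℤ) * x + b) := by
      intro j x
      rw [eval_comp]
      simp
    constructor
    · have h2 : (range q).filter (fun a : ℕ => ∃ j, (q : ℤ) ∣ (θ.f j).eval ((P : ℤ) * (a : ℤ) + b)) ⊆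
          univ.biUnion (fun j => (range q).filter (fun a : ℕ => (q : ℤ) ∣
            ((θ.f j).comp (C (P : ℤ) * X + C b)).eval (a : ℤ))) := by
        intro a ha
        rw [mem_filter] at ha
        obtain ⟨ha1, j, hj⟩ := ha
        rw [mem_biUnion]
        refine ⟨j, mem_univ _, mem_filter.2 ⟨ha1, ?_⟩⟩
        rw [hev]
        exact hj
      refine (card_le_card h2).trans (card_biUnion_le.trans (le_trans (sum_le_sum fun j _ => ?_) θ.deg))
      obtain ⟨a, -, ha⟩ := hne
      refine (roots_card _ q hq ⟨a, by rw [hev]; exact ha j⟩).trans ?_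
      refine natDegree_comp_le.trans ?_
      have : (C (P : ℤ) * X + C b).natDegree ≤ 1 := by compute_degree
      calc (θ.f j).natDegree * (C (P : ℤ) * X + C b).natDegree ≤ (θ.f j).natDegree * 1 := Nat.mul_le_mul_left _ this
        _ = _ := mul_one _
    · obtain ⟨a, ha, haf⟩ := hne
      refine ⟨a, ha, ?_⟩
      rw [mem_filter]
      rintro ⟨-, j, hj⟩
      exact haf j hj
  -- the family
  set sb := s.filter (fun i => ∀ j, (P : ℤ) ∣ v i j - b) with hsb
  have hPr6 : (P : ℝ) ^ r ≤ M ^ (6 * θ₀ * r) := by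
    rw [Real.rpow_mul hM0.le, Real.rpow_natCast]
    exact pow_le_pow_left₀ hPr.le hPM r
  have hPη : (P : ℝ) ≤ M ^ (η / 4) := hPM.trans (hmono _ _ (by linarith))
  have hPη' : (P : ℝ) ≤ M ^ η := hPM.trans (hmono _ _ (by linarith))
  have hPr0 : (0 : ℝ) < (P : ℝ) ^ r := by positivity
  have hcount : (s.card : ℝ) / (2 * (P : ℝ) ^ r) ≤ sb.card := by
    have h2 := classJ_le s v P hP0 (s.card * M ^ (-η)) (by positivity)
      (fun h hh hh0 => hS P hP0 hPη' h hh hh0) (fun _ => b)
    have h3 := (abs_le.1 h2).1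
    have h4 : (s.card : ℝ) * M ^ (-η) ≤ s.card / (2 * (P : ℝ) ^ r) := by
      rw [le_div_iff₀ (by positivity)]
      have h5 : M ^ (-η) * (2 * (P : ℝ) ^ r) ≤ 1 := by
        have h6 : M ^ (-η) * M ^ (6 * θ₀ * r) ≤ M ^ (-(η / 4)) := by
          rw [← Real.rpow_add hM0]
          apply hmono
          have : 6 * θ₀ * r ≤ η / 8 := by nlinarith
          linarith
        have h7 : M ^ (-(η / 4)) * 2 ≤ 1 := by
          rw [Real.rpow_neg hM0.le, inv_mul_le_iff₀ (by positivity)]
          linarith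
        have h8 : M ^ (-η) * (P : ℝ) ^ r ≤ M ^ (-η) * M ^ (6 * θ₀ * r) :=
          mul_le_mul_of_nonneg_left hPr6 (by positivity)
        linarith
      calc (s.card : ℝ) * M ^ (-η) * (2 * (P : ℝ) ^ r) = s.card * (M ^ (-η) * (2 * (P : ℝ) ^ r)) := by ring
        _ ≤ s.card * 1 := mul_le_mul_of_nonneg_left h5 (Nat.cast_nonneg _)
        _ = _ := mul_one _
    have h5 : (s.card : ℝ) / (P : ℝ) ^ r = 2 * (s.card / (2 * (P : ℝ) ^ r)) := by field_simp
    rw [h5] at h3
    linarith
  have hwv : ∀ i ∈ sb, ∀ j, v i j = P * ((v i j - b) / P) + b := by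
    intro i hi j
    have h2 := (mem_filter.1 hi).2 j
    have := Int.mul_ediv_cancel' h2
    linarith
  have key := hM ⟨_, hOm⟩ ι sb (fun i j => (v i j - b) / P) (by
    intro i hi j
    have h2 := hv i (mem_filter.1 hi).1 j
    have h3 := hwv i hi j
    have h4 : ((v i j : ℤ) : ℝ) = P * (((v i j - b) / P : ℤ) : ℝ) + b := by exact_mod_cast h3
    have h5 : (b : ℝ) ≤ P := by exact_mod_cast hbP.le
    have h6 : M ^ η ≤ P * (((v i j - b) / P : ℤ) : ℝ) + P := by linarith
    have h7 : M ^ η = M ^ (η / 2) * M ^ (η / 4) * M ^ (η / 4) := by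
      rw [← Real.rpow_add hM0, ← Real.rpow_add hM0]
      congr 1
      ring
    have h8 : 1 ≤ M ^ (η / 4) := by linarith
    have h9 : 1 ≤ M ^ (η / 2) := Real.one_le_rpow hM1' (by positivity)
    have h10 : (P : ℝ) * (2 * M ^ (η / 4)) ≤ M ^ η := by
      rw [h7]
      have h11 : (P : ℝ) * 2 ≤ M ^ (η / 2) * M ^ (η / 4) := by
        have : (P : ℝ) * 2 ≤ M ^ (η / 4) * M ^ (η / 4) := by nlinarith
        have h12 : M ^ (η / 2) = M ^ (η / 4) * M ^ (η / 4) := by
          rw [← Real.rpow_add hM0]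
          congr 1
          ring
        nlinarith
      nlinarith
    have h11 : (P : ℝ) * (2 * M ^ (η / 4)) ≤ P * ((((v i j - b) / P : ℤ) : ℝ) + 1) := by linarith
    have h12 := le_of_mul_le_mul_left h11 hPr
    linarith) (by
    intro q hq hqM h hh hh0
    have h2 := class_sum s v P hP0 b q hq (s.card * M ^ (-η)) (by
      intro H hH hH0
      have h3 : ((q * P : ℕ) : ℝ) ≤ M ^ η := by
        push_cast
        calc (q : ℝ) * P ≤ M ^ (η / 4) * M ^ (η / 4) := mul_le_mul hqM hPη hPr.le (by positivity)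
          _ = M ^ (η / 4 + η / 4) := by rw [← Real.rpow_add hM0]
          _ ≤ M ^ η := hmono _ _ (by linarith)
      have h4 := hS (q * P) (Nat.mul_pos hq hP0) h3 H hH hH0
      exact h4) h hh hh0
    refine (le_of_eq ?_).trans (h2.trans ?_)
    · congr!
    · have h3 : (s.card : ℝ) ≤ sb.card * (2 * (P : ℝ) ^ r) := by
        rwa [div_le_iff₀ (by positivity)] at hcount
      have h4 : (2 * (P : ℝ) ^ r) * M ^ (-η) ≤ M ^ (-(η / 4)) := by
        have h5 : M ^ (-η) = M ^ (-(η / 4)) * (M ^ (-(η / 4)) * M ^ (-(η / 2))) := by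
          rw [← Real.rpow_add hM0, ← Real.rpow_add hM0]
          congr 1
          ring
        have h6 : (P : ℝ) ^ r * M ^ (-(η / 2)) ≤ 1 := by
          calc (P : ℝ) ^ r * M ^ (-(η / 2)) ≤ M ^ (6 * θ₀ * r) * M ^ (-(η / 2)) :=
                mul_le_mul_of_nonneg_right hPr6 (by positivity)
            _ = M ^ (6 * θ₀ * r + -(η / 2)) := by rw [← Real.rpow_add hM0]
            _ ≤ 1 := Real.rpow_le_one_of_one_le_of_nonpos hM1' (by nlinarith)
        have h7 : M ^ (-(η / 4)) * 2 ≤ 1 := by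
          rw [Real.rpow_neg hM0.le, inv_mul_le_iff₀ (by positivity)]
          linarith
        have h8 : 0 < M ^ (-(η / 4)) := by positivity
        rw [h5]
        calc 2 * (P : ℝ) ^ r * (M ^ (-(η / 4)) * (M ^ (-(η / 4)) * M ^ (-(η / 2)))) =
            M ^ (-(η / 4)) * ((M ^ (-(η / 4)) * 2) * ((P : ℝ) ^ r * M ^ (-(η / 2)))) := by ring
          _ ≤ M ^ (-(η / 4)) * (1 * 1) := by
              apply mul_le_mul_of_nonneg_left _ h8.le
              exact mul_le_mul h7 h6 (by positivity) (by norm_num)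
          _ = _ := by ring
      calc (s.card : ℝ) * M ^ (-η) ≤ sb.card * (2 * (P : ℝ) ^ r) * M ^ (-η) :=
            mul_le_mul_of_nonneg_right h3 (by positivity)
        _ = sb.card * ((2 * (P : ℝ) ^ r) * M ^ (-η)) := by ring
        _ ≤ _ := mul_le_mul_of_nonneg_left h4 (Nat.cast_nonneg _))
  -- the lower bound
  have hlow : min (c / 2) 1 * (s.card : ℝ) * M ^ (-(δ * r)) ≤ c * sb.card * lg D r M := by
    unfold lg
    have hl0 : 0 < (Real.log M) ^ (D * r) := by positivity
    rw [mul_one_div, le_div_iff₀ hl0]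
    have h2 : min (c / 2) 1 * (s.card : ℝ) ≤ (c / 2) * s.card := mul_le_mul_of_nonneg_right (min_le_left _ _) (Nat.cast_nonneg _)
    have h3 : c * ((s.card : ℝ) / (2 * (P : ℝ) ^ r)) ≤ c * sb.card := mul_le_mul_of_nonneg_left hcount hc.le
    refine le_trans ?_ h3
    rcases Nat.eq_zero_or_pos r with hr | hr
    · subst hr
      simp only [Nat.cast_zero, mul_zero, neg_zero, Real.rpow_zero, mul_one, pow_zero]
      calc _ ≤ _ := h2
        _ = _ := by ring
    have h4 : M ^ (-(δ * r)) * (Real.log M) ^ (D * r) ≤ ((P : ℝ) ^ r)⁻¹ := by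
      rw [le_inv_comm₀ (by positivity) hPr0]
      refine hPr6.trans ?_
      rw [le_inv_comm₀ (by positivity) (by positivity), ← Real.rpow_neg hM0.le]
      calc M ^ (-(δ * r)) * (Real.log M) ^ (D * r) ≤ M ^ (-(δ * r)) * M ^ (δ / 2) :=
            mul_le_mul_of_nonneg_left hlp (by positivity)
        _ = M ^ (-(δ * r) + δ / 2) := by rw [← Real.rpow_add hM0]
        _ ≤ M ^ (-(6 * θ₀ * r)) := by
            apply hmono
            have h5 : (1 : ℝ) ≤ r := by exact_mod_cast hr
            nlinarith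
    calc min (c / 2) 1 * (s.card : ℝ) * M ^ (-(δ * r)) * (Real.log M) ^ (D * r) ≤
        (c / 2) * s.card * (M ^ (-(δ * r)) * (Real.log M) ^ (D * r)) := by
          rw [mul_assoc (min (c / 2) 1 * (s.card : ℝ))]
          exact mul_le_mul_of_nonneg_right h2 (by positivity)
      _ ≤ (c / 2) * s.card * ((P : ℝ) ^ r)⁻¹ := mul_le_mul_of_nonneg_left h4 (by positivity)
      _ = c * ((s.card : ℝ) / (2 * (P : ℝ) ^ r)) := by field_simp
  refine (hlow.trans key).trans ?_
  norm_cast
  apply card_le_card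
  intro i hi
  rw [mem_filter] at hi ⊢
  have his : i ∈ s := (mem_filter.1 hi.1).1
  refine ⟨his, fun l => ?_⟩
  have hsf := hi.2 l
  have hx0 : 0 < v i l := hv0 i his l
  refine ⟨hx0, fun _ hxM => ?_⟩
  have hPd : (P : ℤ) ∣ v i l - b := (mem_filter.1 hi.1).2 l
  have hav : ∀ q : ℕ, q.Prime → (q : ℝ) ≤ M ^ κ → ∀ j, ¬ (q : ℤ) ∣ (θ.f j).eval (v i l) := by
    intro q hq hqM j hd
    have h2 := hsf q hq (hqM.trans (hmono _ _ hκκ₁))
    apply h2
    have hqz : (0 : ℤ) < q := by exact_mod_cast hq.pos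
    show (((v i l - b) / (P : ℤ)) % (q : ℤ)).toNat ∈ (range q).filter _
    rw [mem_filter, mem_range]
    have h3 := Int.emod_lt_of_pos ((v i l - b) / (P : ℤ)) hqz
    have h4 := Int.emod_nonneg ((v i l - b) / (P : ℤ)) hqz.ne'
    refine ⟨by omega, j, ?_⟩
    rw [Nat.cast_mul, Int.toNat_of_nonneg h4]
    refine (eval_congr (θ.f j) q _ _ ?_).1 hd
    have h5 := Int.dvd_self_sub_emod (x := (v i l - b) / (P : ℤ)) (m := (q : ℤ))
    have h6 := hwv i hi.1 l
    have h7 : v i l - (P * (((v i l - b) / (P : ℤ)) % (q : ℤ)) + b) =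
        P * ((v i l - b) / (P : ℤ) - ((v i l - b) / (P : ℤ)) % (q : ℤ)) := by linarith
    rw [h7]
    exact dvd_mul_of_dvd_right h5 _
  constructor
  · intro j
    apply almost_of κ hκ ((D : ℝ) + 2) M hM1 hM2 _ (fun q hq hqM => hav q hq hqM j)
    have hdeg : (θ.f j).natDegree ≤ D := (single_le_sum (fun i _ => Nat.zero_le _) (mem_univ j)).trans θ.deg
    have hlogBM : (Real.log M) ^ B ≤ M := by
      rw [Real.norm_eq_abs, Real.norm_eq_abs, abs_of_nonneg (by linarith), abs_of_nonneg (Real.rpow_nonneg hM0.le _), one_mul] at hlB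
      calc (Real.log M) ^ B ≤ (Real.log M) ^ (B + 1) := pow_le_pow_right₀ hlM1 (by omega)
        _ ≤ (M ^ (1 / (B + 1 : ℕ) : ℝ)) ^ (B + 1) := pow_le_pow_left₀ (by linarith) hlB _
        _ = M := by
            rw [← Real.rpow_natCast, ← Real.rpow_mul hM0.le]
            have : (1 / ((B + 1 : ℕ) : ℝ)) * ((B + 1 : ℕ) : ℝ) = 1 := by field_simp
            rw [this, Real.rpow_one]
    obtain ⟨x, hx⟩ := Int.eq_ofNat_of_zero_le hx0.le
    rw [hx] at hxM ⊢
    refine (eval_bound (θ.f j) D hdeg M M hM1' (fun i => (hcoef j i).trans hlogBM) x (by exact_mod_cast hxM)).trans ?_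
    rw [show (D : ℝ) + 2 = ((D + 2 : ℕ) : ℝ) by push_cast; ring, Real.rpow_natCast, pow_add]
    have : (D + 1 : ℝ) * M * M ^ D ≤ M * M * M ^ D :=
      mul_le_mul_of_nonneg_right (mul_le_mul_of_nonneg_right hMD hM0.le) (by positivity)
    calc _ ≤ _ := this
      _ = _ := by ring
  · intro m hm hmf
    have hmc : |(m : ℝ)| ≤ c0 * gy (θ₀ * Real.log M) := by
      refine hm.trans ?_
      rw [GG_eq]
      have h2 : 0 ≤ gy (Real.log M) := by
        by_contra hneg
        push Not at hneg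
        have h3 : |(m : ℝ)| < 0 := lt_of_le_of_lt hm (by rw [GG_eq]; exact mul_neg_of_pos_of_neg hκ hneg)
        exact absurd (abs_nonneg (m : ℝ)) (not_le.2 h3)
      calc κ * gy (Real.log M) ≤ c0 * θ₀ / 4 * gy (Real.log M) := mul_le_mul_of_nonneg_right hκc h2
        _ = c0 * (θ₀ / 4 * gy (Real.log M)) := by ring
        _ ≤ _ := mul_le_mul_of_nonneg_left hgs hc0.le
    obtain ⟨q, hq, hqy, hqP, hqd⟩ := hPc m hmc hmf
    refine ⟨q, hq, ?_, ?_⟩
    · have : 10 * (θ₀ * Real.log M) ≤ 1 * Real.log M := by nlinarith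
      linarith
    · have h2 : (q : ℤ) ∣ (v i l - b) + (b - b') := dvd_add ((Int.natCast_dvd_natCast.2 hqP).trans hPd)
        ((Int.natCast_dvd_natCast.2 hqP).trans hbb)
      have h3 := dvd_add h2 hqd
      have h4 : v i l - b + (b - b') + (b' + m) = v i l + m := by ring
      rwa [h4] at h3

end Pool.Agent.Q46.IP
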