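import Pool.Agent.Q46.IP.Cover

set_option autoImplicit false

/-! # The covering theorem -/

namespace Pool.Agent.Q46.IP

open Finset Filter Polynomial
open Pool.Agent.Q46.SL (roots_card)

/-- the forbidden classes for the centre -/
def OmF {n : ℕ} (f : Fin n → ℤ[X]) (b : ℕ → ℕ) (p : ℕ) : Finset ℕ := by
  classical exact (range p).filter (fun t => ∃ j, (p : ℤ) ∣ (f j).eval ((t : ℤ) - b p))

lemma mem_OmF {n : ℕ} (f : Fin n → ℤ[X]) (b : ℕ → ℕ) (p : ℕ) (hp : 0 < p) (t : ℕ) :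
    t % p ∈ OmF f b p ↔ ∃ j, (p : ℤ) ∣ (f j).eval ((t : ℤ) - b p) := by
  classical
  unfold OmF
  rw [mem_filter, mem_range]
  have h1 : (p : ℤ) ∣ (((t % p : ℕ) : ℤ) - b p) - ((t : ℤ) - b p) := by
    have := Nat.div_add_mod t p
    refine ⟨-(t / p : ℕ), ?_⟩
    have h2 : ((p * (t / p) + t % p : ℕ) : ℤ) = t := by exact_mod_cast this
    push_cast at h2 ⊢
    linarith
  constructor
  · rintro ⟨-, j, hj⟩
    exact ⟨j, (eval_congr (f j) p _ _ h1).1 hj⟩
  · rintro ⟨j, hj⟩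
    exact ⟨Nat.mod_lt _ hp, j, (eval_congr (f j) p _ _ h1).2 hj⟩

lemma OmF_card {n D : ℕ} (f : Fin n → ℤ[X]) (hD : ∑ j, (f j).natDegree ≤ D) (b : ℕ → ℕ) (p : ℕ) (hp : p.Prime)
    (h : ∃ a < p, ∀ j, ¬ (p : ℤ) ∣ (f j).eval (a : ℤ)) : (OmF f b p).card ≤ D ∧ ∃ a < p, a ∉ OmF f b p := by
  classical
  obtain ⟨a, ha, haf⟩ := h
  have hev : ∀ (j : Fin n) (x : ℤ), ((f j).comp (X - C (b p : ℤ))).eval x = (f j).eval (x - b p) := by
    intro j x
    rw [eval_comp]
    simp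
  constructor
  · have h1 : OmF f b p ⊆ univ.biUnion (fun j => (range p).filter (fun t : ℕ => (p : ℤ) ∣
        ((f j).comp (X - C (b p : ℤ))).eval (t : ℤ))) := by
      intro t ht
      unfold OmF at ht
      rw [mem_filter] at ht
      obtain ⟨h2, j, hj⟩ := ht
      rw [mem_biUnion]
      refine ⟨j, mem_univ _, mem_filter.2 ⟨h2, ?_⟩⟩
      rw [hev]
      exact hj
    refine (card_le_card h1).trans (card_biUnion_le.trans (le_trans (sum_le_sum fun j _ => ?_) hD))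
    refine (roots_card _ p hp ⟨a + b p, ?_⟩).trans ?_
    · rw [hev]
      push_cast
      rw [add_sub_cancel_right]
      exact haf j
    · rw [natDegree_comp, natDegree_X_sub_C, mul_one]
  · refine ⟨(a + b p) % p, Nat.mod_lt _ hp.pos, ?_⟩
    rw [mem_OmF f b p hp.pos]
    rintro ⟨j, hj⟩
    push_cast at hj
    rw [add_sub_cancel_right] at hj
    exact haf j hj

open Classical in
/-- **the covering theorem** -/
theorem cover (n D B : ℕ) : ∃ c : ℝ, 0 < c ∧ ∀ᶠ y : ℝ in atTop, ∀ f : Fin n → ℤ[X], ∑ j, (f j).natDegree ≤ D →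
    (∀ p : ℕ, p.Prime → ∃ a < p, ∀ j, ¬ (p : ℤ) ∣ (f j).eval (a : ℤ)) →
    (∀ j i, |(((f j).coeff i : ℤ) : ℝ)| ≤ y ^ B) →
    ∃ (P : ℕ) (b : ℤ), 0 < P ∧ (P : ℝ) ≤ Real.exp (6 * y) ∧
      (∀ p : ℕ, p.Prime → p ∣ P → ∀ j, ¬ (p : ℤ) ∣ (f j).eval b) ∧
      ∀ i : ℤ, |(i : ℝ)| ≤ c * gy y → (∀ j, (f j).eval (-i) ≠ 0) →
        ∃ p : ℕ, p.Prime ∧ (p : ℝ) ≤ 10 * y ∧ p ∣ P ∧ (p : ℤ) ∣ b + i := by
  obtain ⟨c0, hc0, hsurv⟩ := surv
  obtain ⟨κ₀, hκ, hκ1, C, hC, hcen⟩ := center D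
  refine ⟨c0 / 6, by positivity, ?_⟩
  -- the centre theorem in terms of `y`
  obtain ⟨U₀, hU₀⟩ := hcen.exists_forall_of_atTop
  filter_upwards [hsurv, many_primes, ev_bad κ₀ C hκ hκ1 hC D, eventually_ge_atTop ((U₀ : ℝ) + 1), eventually_ge_atTop (1000 : ℝ),
    eventually_ge_atTop ((D : ℝ) + 1), t1.eventually (eventually_ge_atTop (3 : ℝ)),
    Real.isLittleO_log_id_atTop.def (show (0 : ℝ) < 1 / (n * (B + 3 * D + 1) + 1 : ℝ) by positivity)]
    with y h1 h2 h3 h4 h5 h5' h6 h7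
  obtain ⟨g1, g2, b₀, g3⟩ := h1
  intro f hD hadm hcoef
  set U : ℕ := ⌊c0 * gy y⌋₊ with hU
  set Y : ℕ := ⌊y⌋₊ with hY
  have hy0 : 0 < y := by linarith
  have hly : 0 < Real.log y := by linarith
  have hUr : (U : ℝ) ≤ c0 * gy y := Nat.floor_le (by linarith)
  have hUlt : c0 * gy y < U + 1 := Nat.lt_floor_add_one _
  have hUy : y ≤ U := by linarith
  have hYr : (Y : ℝ) ≤ y := Nat.floor_le hy0.le
  have hYU : Y ≤ U := by exact_mod_cast hYr.trans hUy
  have hU1 : (1 : ℝ) ≤ U := by linarith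
  have hU1000 : 1000 ≤ U := by
    have : (1000 : ℝ) ≤ U := by linarith
    exact_mod_cast this
  have hUU₀ : U₀ ≤ U := by
    have : (U₀ : ℝ) ≤ U := by linarith
    exact_mod_cast this
  have hUV : (U : ℝ) ≤ y * (Real.log y) ^ 2 := hUr.trans g2
  have hmemY : ∀ p : ℕ, (p : ℝ) ≤ y ↔ p ≤ Y := fun p => ⟨fun h => Nat.le_floor h, fun h => by
    have : (p : ℝ) ≤ Y := by exact_mod_cast h
    linarith⟩
  obtain ⟨t, ht1, ht2, ht3, ht4⟩ := hU₀ U hUU₀ (OmF f b₀) (fun p hp => OmF_card f hD b₀ p hp (hadm p hp)) Y hYU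
  set Bad := (range (Y + 1)).filter (fun p => p.Prime ∧ t % p ∈ OmF f b₀ p) with hBad
  have hBadgt : ∀ p ∈ Bad, (U : ℝ) ^ κ₀ < p := by
    intro p hp
    rw [hBad, mem_filter] at hp
    by_contra h
    push Not at h
    exact ht3 p hp.2.1 h hp.2.2
  -- the positions which are not covered
  set T : Finset ℕ := (Icc 1 U).filter (fun k => ∀ p : ℕ, p.Prime → (p : ℝ) ≤ y → p ∉ Bad → ¬ k ≡ b₀ p [MOD p]) with hT
  have hTcard : (T.card : ℝ) ≤ 2 * (y / Real.log y) := by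
    have e1 : T ⊆ (Icc 1 U).filter (fun k => ∀ p : ℕ, p.Prime → (p : ℝ) ≤ y → ¬ k ≡ b₀ p [MOD p]) ∪
        Bad.biUnion (fun p => (Ico 1 (1 + U)).filter (fun k => k % p = b₀ p % p)) := by
      intro k hk
      rw [hT, mem_filter] at hk
      rw [mem_union, mem_filter, mem_biUnion]
      by_cases h : ∀ p : ℕ, p.Prime → (p : ℝ) ≤ y → ¬ k ≡ b₀ p [MOD p]
      · exact Or.inl ⟨hk.1, h⟩
      · push Not at h
        obtain ⟨p, hp, hpy, hkp⟩ := h
        have hpB : p ∈ Bad := by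
          by_contra hpB
          exact hk.2 p hp hpy hpB hkp
        refine Or.inr ⟨p, hpB, mem_filter.2 ⟨?_, hkp⟩⟩
        rw [mem_Ico]
        have := mem_Icc.1 hk.1
        omega
    have e2 : (T.card : ℝ) ≤ y / Real.log y + ∑ p ∈ Bad, ((U : ℝ) * (U : ℝ) ^ (-κ₀) + 2) := by
      have e3 := (card_le_card e1).trans (card_union_le _ _)
      have e4 : (T.card : ℝ) ≤ (((Icc 1 U).filter (fun k => ∀ p : ℕ, p.Prime → (p : ℝ) ≤ y → ¬ k ≡ b₀ p [MOD p])).card : ℝ) +
          ((Bad.biUnion (fun p => (Ico 1 (1 + U)).filter (fun k => k % p = b₀ p % p))).card : ℝ) := by exact_mod_cast e3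
      refine e4.trans (add_le_add g3 ?_)
      have e5 : (((Bad.biUnion (fun p => (Ico 1 (1 + U)).filter (fun k => k % p = b₀ p % p))).card : ℕ) : ℝ) ≤
          ∑ p ∈ Bad, ((((Ico 1 (1 + U)).filter (fun k => k % p = b₀ p % p)).card : ℕ) : ℝ) := by
        exact_mod_cast card_biUnion_le
      refine e5.trans (sum_le_sum fun p hp => ?_)
      have hpp : 0 < p := by
        rw [hBad, mem_filter] at hp
        exact hp.2.1.pos
      have e6 := class_card 1 U p (b₀ p % p) hpp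
      have e7 : ((((Ico 1 (1 + U)).filter (fun k => k % p = b₀ p % p)).card : ℕ) : ℝ) ≤ ((U / p : ℕ) : ℝ) + 2 := by
        exact_mod_cast e6
      refine e7.trans ?_
      have e8 : ((U / p : ℕ) : ℝ) ≤ (U : ℝ) / p := Nat.cast_div_le
      have e9 : (U : ℝ) / p ≤ (U : ℝ) * (U : ℝ) ^ (-κ₀) := by
        rw [Real.rpow_neg (by linarith), ← div_eq_mul_inv]
        exact div_le_div_of_nonneg_left (by linarith) (by positivity) (hBadgt p hp).le
      linarith
    rw [sum_const, nsmul_eq_mul] at e2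
    have e3 := h3 U hU1 hUV
    have e4 : (Bad.card : ℝ) * ((U : ℝ) * (U : ℝ) ^ (-κ₀) + 2) ≤
        C * (Real.log U) ^ (D + 1) * ((U : ℝ) * (U : ℝ) ^ (-κ₀) + 2) :=
      mul_le_mul_of_nonneg_right ht4 (by positivity)
    linarith
  set T1 : Finset ℕ := T.filter (fun k => ∀ j, (f j).eval ((t : ℤ) - k) ≠ 0) with hT1
  have hT1card : (T1.card : ℝ) ≤ 2 * (y / Real.log y) :=
    le_trans (by exact_mod_cast card_le_card (filter_subset _ _)) hTcard
  have hT1U : ∀ k ∈ T1, 1 ≤ k ∧ k ≤ U := by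
    intro k hk
    rw [hT1, mem_filter, hT, mem_filter, mem_Icc] at hk
    exact hk.1.1
  -- fresh primes
  set F : Finset ℕ := (Icc 1 ⌊10 * y⌋₊).filter (fun p : ℕ => p.Prime ∧ y < (p : ℝ)) with hF
  have hFp : ∀ q ∈ F, q.Prime ∧ y < (q : ℝ) := fun q hq => (mem_filter.1 hq).2
  have hFle : ∀ q ∈ F, (q : ℝ) ≤ 10 * y := by
    intro q hq
    have := (mem_Icc.1 (mem_filter.1 hq).1).2
    have h8 : (q : ℝ) ≤ (⌊10 * y⌋₊ : ℕ) := by exact_mod_cast this
    exact h8.trans (Nat.floor_le (by linarith))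
  have hK : ∀ k ∈ T1, ((F.filter (fun q : ℕ => ∃ j, (q : ℤ) ∣ (f j).eval ((t : ℤ) - k))).card : ℝ) ≤ n * (B + 3 * D + 1) := by
    intro k hk
    have e1 : F.filter (fun q : ℕ => ∃ j, (q : ℤ) ∣ (f j).eval ((t : ℤ) - k)) ⊆
        univ.biUnion (fun j => F.filter (fun q : ℕ => (q : ℤ) ∣ (f j).eval ((t : ℤ) - k))) := by
      intro q hq
      rw [mem_filter] at hq
      obtain ⟨hq1, j, hj⟩ := hq
      rw [mem_biUnion]
      exact ⟨j, mem_univ _, mem_filter.2 ⟨hq1, hj⟩⟩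
    have e2 : (F.filter (fun q : ℕ => ∃ j, (q : ℤ) ∣ (f j).eval ((t : ℤ) - k))).card ≤ ∑ _j : Fin n, (B + 3 * D + 1) := by
      refine (card_le_card e1).trans (card_biUnion_le.trans (sum_le_sum fun j _ => ?_))
      have hk0 := (mem_filter.1 hk).2 j
      apply large_divisors F y (by linarith) hFp _ hk0
      -- the bound for the value
      have hdeg : (f j).natDegree ≤ D := (single_le_sum (fun i _ => Nat.zero_le _) (mem_univ j)).trans hD
      have e3 : |(((t : ℤ) - k : ℤ) : ℝ)| ≤ y ^ 3 := by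
        have hk1 := hT1U k hk
        have e4 : |(((t : ℤ) - k : ℤ) : ℝ)| ≤ U := by
          rw [abs_le]
          push_cast
          have e5 : (t : ℝ) ≤ U := by exact_mod_cast (by omega : t ≤ U)
          have e6 : (k : ℝ) ≤ U := by exact_mod_cast hk1.2
          have e7 : (0 : ℝ) ≤ t := Nat.cast_nonneg _
          have e8 : (0 : ℝ) ≤ k := Nat.cast_nonneg _
          constructor <;> linarith
        have e5 : Real.log y ≤ y := by
          have := Real.log_le_sub_one_of_pos hy0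
          linarith
        calc |(((t : ℤ) - k : ℤ) : ℝ)| ≤ U := e4
          _ ≤ y * (Real.log y) ^ 2 := hUV
          _ ≤ y * y ^ 2 := mul_le_mul_of_nonneg_left (pow_le_pow_left₀ hly.le e5 2) hy0.le
          _ = y ^ 3 := by ring
      rw [eval_eq_sum_range' (Nat.lt_succ_of_le hdeg)]
      push_cast
      refine (abs_sum_le_sum_abs _ _).trans ?_
      have hy1 : 1 ≤ y := by linarith
      have e4 : ∀ i ∈ range D.succ, |(((f j).coeff i : ℤ) : ℝ) * ((t : ℝ) - k) ^ i| ≤ y ^ (B + 3 * D) := by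
        intro i hi
        rw [abs_mul, abs_pow, pow_add]
        push_cast at e3
        have hiD : i ≤ D := by
          rw [mem_range] at hi
          omega
        refine mul_le_mul (hcoef j i) ?_ (by positivity) (by positivity)
        calc |(t : ℝ) - k| ^ i ≤ (y ^ 3) ^ i := pow_le_pow_left₀ (abs_nonneg _) e3 i
          _ ≤ (y ^ 3) ^ D := pow_le_pow_right₀ (one_le_pow₀ hy1) hiD
          _ = _ := by rw [← pow_mul]
      refine (sum_le_sum e4).trans ?_
      rw [sum_const, card_range, nsmul_eq_mul, pow_succ y (B + 3 * D), mul_comm]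
      apply mul_le_mul_of_nonneg_left _ (by positivity)
      push_cast
      exact h5'
    have e3 : ∑ _j : Fin n, (B + 3 * D + 1) = n * (B + 3 * D + 1) := by simp
    rw [e3] at e2
    exact_mod_cast e2
  have hKy : (n : ℝ) * (B + 3 * D + 1) ≤ y / Real.log y := by
    rw [Real.norm_eq_abs, Real.norm_eq_abs, abs_of_nonneg hly.le] at h7
    simp only [id] at h7
    rw [abs_of_pos hy0, div_mul_eq_mul_div, one_mul, le_div_iff₀ (by positivity)] at h7
    rw [le_div_iff₀ hly]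
    nlinarith
  obtain ⟨φ, hφ, hφm⟩ := (Finset.all_card_le_biUnion_card_iff_exists_injective
      (fun k : {k // k ∈ T1} => F \ F.filter (fun q : ℕ => ∃ j, (q : ℤ) ∣ (f j).eval ((t : ℤ) - (k : ℕ))))).1 (by
    intro s
    rcases s.eq_empty_or_nonempty with rfl | ⟨k, hk⟩
    · simp
    have e1 : F \ F.filter (fun q : ℕ => ∃ j, (q : ℤ) ∣ (f j).eval ((t : ℤ) - (k : ℕ))) ⊆
        s.biUnion (fun k : {k // k ∈ T1} => F \ F.filter (fun q : ℕ => ∃ j, (q : ℤ) ∣ (f j).eval ((t : ℤ) - (k : ℕ)))) :=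
      subset_biUnion_of_mem (fun k : {k // k ∈ T1} => F \ F.filter (fun q : ℕ => ∃ j, (q : ℤ) ∣
        (f j).eval ((t : ℤ) - (k : ℕ)))) hk
    have e2 := card_sdiff_add_card_eq_card (filter_subset (fun q : ℕ => ∃ j, (q : ℤ) ∣ (f j).eval ((t : ℤ) - (k : ℕ))) F)
    have e3 : (((F \ F.filter (fun q : ℕ => ∃ j, (q : ℤ) ∣ (f j).eval ((t : ℤ) - (k : ℕ)))).card : ℕ) : ℝ) +
        (((F.filter (fun q : ℕ => ∃ j, (q : ℤ) ∣ (f j).eval ((t : ℤ) - (k : ℕ)))).card : ℕ) : ℝ) = (F.card : ℝ) := by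
      exact_mod_cast e2
    have e4 := hK k k.2
    have e5 : (s.card : ℝ) ≤ T1.card := by
      have : s.card ≤ Fintype.card {k // k ∈ T1} := card_le_univ s
      rw [Fintype.card_coe] at this
      exact_mod_cast this
    have e6 : (s.card : ℝ) ≤ (((F \ F.filter (fun q : ℕ => ∃ j, (q : ℤ) ∣ (f j).eval ((t : ℤ) - (k : ℕ)))).card : ℕ) : ℝ) := by
      linarith
    have e7 : s.card ≤ (F \ F.filter (fun q : ℕ => ∃ j, (q : ℤ) ∣ (f j).eval ((t : ℤ) - (k : ℕ)))).card := by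
      exact_mod_cast e6
    exact e7.trans (card_le_card e1))
  have hφF : ∀ k, φ k ∈ F := fun k => (Finset.mem_sdiff.1 (hφm k)).1
  have hφn : ∀ k j, ¬ ((φ k : ℕ) : ℤ) ∣ (f j).eval ((t : ℤ) - (k : ℕ)) := by
    intro k j hd
    exact (Finset.mem_sdiff.1 (hφm k)).2 (mem_filter.2 ⟨hφF k, j, hd⟩)
  -- the residues
  choose! α hα using fun p (hp : p.Prime) => hadm p hp
  set r : ℕ → ℤ := fun p => if p ≤ Y then (if p ∈ Bad then (α p : ℤ) else (t : ℤ) - b₀ p)
    else (if h : ∃ k, φ k = p then (t : ℤ) - ((h.choose : {k // k ∈ T1}) : ℕ) else 0) with hr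
  set S0 : Finset ℕ := (range (Y + 1)).filter Nat.Prime with hS0
  set S1 : Finset ℕ := univ.image φ with hS1
  have hS1p : ∀ p ∈ S1, p.Prime ∧ y < (p : ℝ) ∧ (p : ℝ) ≤ 10 * y := by
    intro p hp
    rw [hS1, mem_image] at hp
    obtain ⟨k, -, rfl⟩ := hp
    exact ⟨(hFp _ (hφF k)).1, (hFp _ (hφF k)).2, hFle _ (hφF k)⟩
  have hSp : ∀ p ∈ S0 ∪ S1, p.Prime := by
    intro p hp
    rcases mem_union.1 hp with h | h
    · exact (mem_filter.1 h).2
    · exact (hS1p p h).1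
  obtain ⟨b, hb⟩ := Pool.Agent.H256R2.SC.crt_int (S0 ∪ S1) (fun p : ℕ => (p : ℤ)) (by
    intro p hp q hq hpq
    rw [Nat.isCoprime_iff_coprime]
    exact (Nat.coprime_primes (hSp p hp) (hSp q hq)).2 hpq) r
  have hrφ : ∀ k, r (φ k) = (t : ℤ) - (k : ℕ) := by
    intro k
    have h8 : ¬ φ k ≤ Y := by
      intro h
      have := (hFp _ (hφF k)).2
      have h9 : ((φ k : ℕ) : ℝ) ≤ Y := by exact_mod_cast h
      linarith
    have h9 : ∃ k', φ k' = φ k := ⟨k, rfl⟩
    simp only [hr, if_neg h8, dif_pos h9]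
    rw [hφ h9.choose_spec]
  have hrY : ∀ p, p.Prime → p ≤ Y → p ∉ Bad → r p = (t : ℤ) - b₀ p := by
    intro p _ hpY hpB
    simp only [hr, if_pos hpY, if_neg hpB]
  refine ⟨∏ p ∈ S0 ∪ S1, p, b, prod_pos fun p hp => (hSp p hp).pos, ?_, ?_, ?_⟩
  · -- the size of the modulus
    have e1 : (((∏ p ∈ S0 ∪ S1, p : ℕ)) : ℝ) ≤ ((∏ p ∈ S0, p : ℕ) : ℝ) * ((∏ p ∈ S1, p : ℕ) : ℝ) := by
      have : ∏ p ∈ S0 ∪ S1, p ≤ (∏ p ∈ S0, p) * ∏ p ∈ S1, p := by
        rw [← prod_union_inter]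
        exact Nat.le_mul_of_pos_right _ (prod_pos fun p hp => (hSp p (mem_union_left _ (mem_inter.1 hp).1)).pos)
      exact_mod_cast this
    have e2 : ((∏ p ∈ S0, p : ℕ) : ℝ) ≤ Real.exp (2 * y) := by
      have h8 : ∏ p ∈ S0, p ≤ 4 ^ Y := primorial_le_four_pow Y
      have h9 : ((∏ p ∈ S0, p : ℕ) : ℝ) ≤ (4 : ℝ) ^ Y := by exact_mod_cast h8
      refine h9.trans ?_
      rw [← Real.rpow_natCast, Real.rpow_def_of_pos (by norm_num)]
      apply Real.exp_le_exp.2
      have hlog4 : Real.log 4 ≤ 1.4 := by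
        have : Real.log 4 = 2 * Real.log 2 := by
          rw [show (4 : ℝ) = 2 ^ 2 by norm_num, Real.log_pow]
          norm_num
        have := Real.log_two_lt_d9
        linarith
      have : Real.log 4 * Y ≤ 1.4 * y := mul_le_mul hlog4 hYr (Nat.cast_nonneg _) (by norm_num)
      linarith
    have e3 : ((∏ p ∈ S1, p : ℕ) : ℝ) ≤ Real.exp (4 * y) := by
      push_cast
      have h8 : ∏ p ∈ S1, (p : ℝ) ≤ (10 * y) ^ S1.card := by
        rw [← prod_const]
        exact prod_le_prod (fun _ _ => Nat.cast_nonneg _) fun p hp => (hS1p p hp).2.2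
      refine h8.trans ?_
      have h9 : (S1.card : ℝ) ≤ 2 * (y / Real.log y) := by
        have : S1.card ≤ Fintype.card {k // k ∈ T1} := card_image_le
        rw [Fintype.card_coe] at this
        have h10 : (S1.card : ℝ) ≤ T1.card := by exact_mod_cast this
        linarith
      have h10 : Real.log (10 * y) ≤ 2 * Real.log y := by
        rw [show 2 * Real.log y = Real.log (y ^ 2) by rw [Real.log_pow]; norm_num]
        exact Real.log_le_log (by positivity) (by nlinarith)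
      rw [← Real.rpow_natCast, Real.rpow_def_of_pos (by positivity)]
      apply Real.exp_le_exp.2
      have h11 : Real.log (10 * y) * (S1.card : ℝ) ≤ (2 * Real.log y) * (2 * (y / Real.log y)) :=
        mul_le_mul h10 h9 (Nat.cast_nonneg _) (by positivity)
      have h12 : (2 * Real.log y) * (2 * (y / Real.log y)) = 4 * y := by field_simp; ring
      linarith
    calc _ ≤ Real.exp (2 * y) * Real.exp (4 * y) := e1.trans (mul_le_mul e2 e3 (Nat.cast_nonneg _) (Real.exp_pos _).le)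
      _ = _ := by
          rw [← Real.exp_add]
          congr 1
          ring
  · -- no polynomial vanishes
    intro p hp hpP j hd
    have hpS : p ∈ S0 ∪ S1 := by
      obtain ⟨q, hq, hpq⟩ := (Nat.Prime.prime hp).exists_mem_finset_dvd hpP
      have := (Nat.prime_dvd_prime_iff_eq hp (hSp q hq)).1 hpq
      rwa [this]
    have h8 := hb p hpS
    have h9 := (eval_congr (f j) p b (r p) h8).1 hd
    rcases mem_union.1 hpS with h | h
    · have hpY : p ≤ Y := by
        have := mem_range.1 (mem_filter.1 h).1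
        omega
      by_cases hpB : p ∈ Bad
      · have : r p = (α p : ℤ) := by simp only [hr, if_pos hpY, if_pos hpB]
        rw [this] at h9
        exact (hα p hp).2 j h9
      · rw [hrY p hp hpY hpB] at h9
        apply hpB
        rw [hBad, mem_filter, mem_range]
        exact ⟨by omega, hp, (mem_OmF f b₀ p hp.pos t).2 ⟨j, h9⟩⟩
    · rw [hS1, mem_image] at h
      obtain ⟨k, -, rfl⟩ := h
      rw [hrφ k] at h9
      exact hφn k j h9
  · -- everything else is covered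
    intro i hi hif
    have hi2 : |(i : ℝ)| ≤ ((U : ℝ) + 1) / 6 := by linarith
    have hi3 : 6 * |i| ≤ U + 1 := by
      have : 6 * |(i : ℝ)| ≤ (U : ℝ) + 1 := by linarith
      exact_mod_cast this
    obtain ⟨k, hk⟩ : ∃ k : ℕ, (k : ℤ) = t + i := by
      refine ⟨(t + i).toNat, Int.toNat_of_nonneg ?_⟩
      have := neg_abs_le i
      omega
    have hkU : 1 ≤ k ∧ k ≤ U := by
      have h8 := neg_abs_le i
      have h9 := le_abs_self i
      omega
    have hik : -i = (t : ℤ) - k := by linarith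
    by_cases hkT : k ∈ T
    · have hkT1 : k ∈ T1 := by
        rw [hT1, mem_filter]
        refine ⟨hkT, fun j => ?_⟩
        rw [← hik]
        exact hif j
      have hm : φ ⟨k, hkT1⟩ ∈ S0 ∪ S1 := mem_union_right _ (mem_image_of_mem _ (mem_univ _))
      refine ⟨φ ⟨k, hkT1⟩, hSp _ hm, hFle _ (hφF _), dvd_prod_of_mem _ hm, ?_⟩
      have h8 := hb _ hm
      rw [hrφ] at h8
      have e1 : b + i = b - ((t : ℤ) - ((⟨k, hkT1⟩ : {k // k ∈ T1}) : ℕ)) := by
        show b + i = b - ((t : ℤ) - (k : ℕ))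
        linarith
      rw [e1]
      exact h8
    · rw [hT, mem_filter, not_and] at hkT
      have h8 := hkT (mem_Icc.2 hkU)
      push Not at h8
      obtain ⟨p, hp, hpy, hpB, hkp⟩ := h8
      have hpY : p ≤ Y := (hmemY p).1 hpy
      have hm : p ∈ S0 ∪ S1 := mem_union_left _ (mem_filter.2 ⟨mem_range.2 (by omega), hp⟩)
      refine ⟨p, hp, by linarith, dvd_prod_of_mem _ hm, ?_⟩
      have h9 := hb p hm
      rw [hrY p hp hpY hpB] at h9
      have h10 : (p : ℤ) ∣ (k : ℤ) - b₀ p := (Nat.modEq_iff_dvd.1 hkp.symm)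
      have e1 : b + i = (b - ((t : ℤ) - b₀ p)) + ((k : ℤ) - b₀ p) := by linarith
      rw [e1]
      exact dvd_add h9 h10

end Pool.Agent.Q46.IP
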