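import Pool.Agent.Q46.IP.Crit
import Pool.Agent.Q46.SL.Tools

set_option autoImplicit false

/-! # Tools for the applications: patterns, pairs, the final estimate -/

namespace Pool.Agent.Q46.IP

open Finset Filter Polynomial
open Pool.Agent.Q46.SL (PE Almost cb cb_mono cb_add cb_X cb_C)

/-- eventual inequalities -/
lemma evI {cc ε κ : ℝ} (hcc : 0 < cc) (hε : 0 < ε) (hκ : 0 < κ) (k : ℕ) : ∃ p₁ : ℕ, 8 ≤ p₁ ∧
    (∀ M : ℝ, (p₁ : ℝ) ≤ M → ∀ X : ℝ, 0 ≤ X → X * M ^ (-ε) ≤ cc * X * M ^ (-(ε / (2 * ((k : ℝ) + 1)) * k))) ∧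
    ∀ M : ℝ, (p₁ : ℝ) ≤ M → κ * GG M ≤ (Real.log M) ^ 2 := by
  have h1 : ∀ᶠ M : ℝ in atTop, 1 / cc ≤ M ^ (ε / 2) := (tendsto_rpow_atTop (by positivity)).eventually_ge_atTop _
  have h2 : ∀ᶠ M : ℝ in atTop, κ * GG M ≤ (Real.log M) ^ 2 := by
    have h3 : ∀ᶠ y : ℝ in atTop, κ * gy y ≤ y ^ 2 := by
      have h4 := (isLittleO_log_rpow_atTop (show (0 : ℝ) < 1 / 2 by norm_num)).def (show (0 : ℝ) < 1 by norm_num)
      filter_upwards [ev_gy κ hκ, h4, eventually_ge_atTop (1 : ℝ)] with y e1 e2 e3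
      rw [Real.norm_eq_abs, Real.norm_eq_abs, abs_of_nonneg (Real.log_nonneg e3),
        abs_of_nonneg (Real.rpow_nonneg (by linarith) _), one_mul] at e2
      have e4 : (Real.log y) ^ 2 ≤ y := by
        calc (Real.log y) ^ 2 ≤ (y ^ (1 / 2 : ℝ)) ^ 2 := pow_le_pow_left₀ (Real.log_nonneg e3) e2 2
          _ = y := by
            rw [← Real.rpow_natCast, ← Real.rpow_mul (by linarith)]
            norm_num
      refine e1.2.trans ?_
      nlinarith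
    exact Real.tendsto_log_atTop.eventually h3
  obtain ⟨M₀, hM₀⟩ := Filter.eventually_atTop.1 ((h1.and h2).and (eventually_ge_atTop (1 : ℝ)))
  refine ⟨max 8 ⌈M₀⌉₊, le_max_left _ _, ?_, ?_⟩
  · intro M hM X hX
    have h3 : M₀ ≤ M := (Nat.le_ceil M₀).trans (le_trans (by exact_mod_cast le_max_right _ _) hM)
    obtain ⟨⟨g1, -⟩, g3⟩ := hM₀ M h3
    have hM0 : 0 < M := by linarith
    have hk : (0 : ℝ) ≤ k := Nat.cast_nonneg k
    have g4 : M ^ (-(ε / 2)) ≤ M ^ (-(ε / (2 * ((k : ℝ) + 1)) * k)) := by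
      apply Real.rpow_le_rpow_of_exponent_le g3
      have : ε / (2 * ((k : ℝ) + 1)) * k ≤ ε / 2 := by
        rw [div_mul_eq_mul_div, div_le_div_iff₀ (by positivity) (by norm_num)]
        nlinarith
      linarith
    have g5 : M ^ (-ε) ≤ cc * M ^ (-(ε / 2)) := by
      have g6 : M ^ (-(ε / 2)) = M ^ (-ε) * M ^ (ε / 2) := by
        rw [← Real.rpow_add hM0]
        congr 1
        ring
      rw [g6]
      have g7 : 1 ≤ cc * M ^ (ε / 2) := by
        rw [div_le_iff₀ hcc] at g1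
        linarith
      have g8 : 0 < M ^ (-ε) := by positivity
      nlinarith
    calc X * M ^ (-ε) ≤ X * (cc * M ^ (-(ε / 2))) := mul_le_mul_of_nonneg_left g5 hX
      _ ≤ X * (cc * M ^ (-(ε / (2 * ((k : ℝ) + 1)) * k))) := by
          apply mul_le_mul_of_nonneg_left _ hX
          exact mul_le_mul_of_nonneg_left g4 hcc.le
      _ = _ := by ring
  · intro M hM
    have h3 : M₀ ≤ M := (Nat.le_ceil M₀).trans (le_trans (by exact_mod_cast le_max_right _ _) hM)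
    exact (hM₀ M h3).1.2

/-- the logarithm of a number `≥ 8` -/
lemma two_le_log {M : ℝ} (hM : 8 ≤ M) : 2 ≤ Real.log M := by
  rw [Real.le_log_iff_exp_le (by linarith)]
  have h1 := Real.exp_one_lt_d9
  have h2 : Real.exp 2 = Real.exp 1 ^ 2 := by rw [← Real.exp_nat_mul]; norm_num
  rw [h2]
  have h3 := Real.exp_pos 1
  nlinarith

/-- the system of a pattern -/
noncomputable def sysT {l : ℕ} (t : Fin l → ℤ) (ht : ∀ q : ℕ, q.Prime → ∃ a < q, ∀ j, ¬ (q : ℤ) ∣ a + t j) :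
    PE l 0 l where
  f := fun j => X + C (t j)
  E := fun _ => ∅
  deg := by
    have h1 : ∀ j : Fin l, (X + C (t j) : ℤ[X]).natDegree ≤ 1 := fun j => by compute_degree
    refine (sum_le_sum fun j _ => h1 j).trans ?_
    simp
  adm := by
    intro q hq
    obtain ⟨a, ha, h2⟩ := ht q hq
    refine ⟨by simp, a, ha, by simp, fun j => ?_⟩
    simpa using h2 j

lemma lone_tuple {l B p₁ : ℕ} {t : Fin l → ℤ} {ht : ∀ q : ℕ, q.Prime → ∃ a < q, ∀ j, ¬ (q : ℤ) ∣ a + t j} {κ M : ℝ}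
    (hp₁ : 8 ≤ p₁) (hM : (p₁ : ℝ) ≤ M) (hts : ∀ j, |(t j : ℝ)| ≤ (Real.log M) ^ B) {x : ℤ}
    (h : Lone (B + 1) (sysT t ht) κ M x) (hx : (x : ℝ) ≤ M) :
    0 < x ∧ (∀ j, Almost (M ^ κ) ⌊((l : ℝ) + 2) / κ⌋₊ (x + t j)) ∧
      ∀ i : ℤ, |(i : ℝ)| ≤ κ * GG M → (∀ j, i ≠ t j) → ∃ q : ℕ, q.Prime ∧ (q : ℝ) ≤ Real.log M ∧ (q : ℤ) ∣ x + i := by
  have hM8 : (8 : ℝ) ≤ M := le_trans (by exact_mod_cast hp₁) hM
  have hl := two_le_log hM8
  obtain ⟨h0, h1⟩ := h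
  obtain ⟨h2, h3⟩ := h1 (by
    intro j
    have hB : (1 : ℝ) ≤ (Real.log M) ^ B := one_le_pow₀ (by linarith)
    refine cb_mono (cb_add cb_X (cb_C (t j))) ?_
    rw [pow_succ]
    have := hts j
    nlinarith) hx
  refine ⟨h0, fun j => ?_, fun i hi hij => ?_⟩
  · simpa [sysT] using h2 j
  · apply h3 i hi
    intro j h4
    apply hij j
    have h5 : (X + C (t j) : ℤ[X]).eval (-i) = 0 := h4
    simp only [eval_add, eval_X, eval_C] at h5
    linarith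

lemma adm_pair {d : ℤ} (hd : Even d) : ∀ q : ℕ, q.Prime → ∃ a < q, ∀ j, ¬ (q : ℤ) ∣ a + (![0, d] : Fin 2 → ℤ) j := by
  intro q hq
  rcases hq.eq_two_or_odd' with h2 | h2
  · subst h2
    refine ⟨1, by norm_num, fun j => ?_⟩
    obtain ⟨k, rfl⟩ := hd
    fin_cases j
    · simp only [Nat.cast_one, Nat.cast_ofNat, Fin.zero_eta, Matrix.cons_val_zero]
      omega
    · simp only [Nat.cast_one, Nat.cast_ofNat, Fin.mk_one, Matrix.cons_val_one, Matrix.cons_val_fin_one]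
      omega
  · have hq3 : 3 ≤ q := by
      have := hq.two_le
      rcases h2 with ⟨k, hk⟩
      omega
    by_cases h : (q : ℤ) ∣ 1 + d
    · refine ⟨2, by omega, fun j => ?_⟩
      fin_cases j
      · simp only [Nat.cast_ofNat, Fin.zero_eta, Matrix.cons_val_zero, add_zero]
        intro h3
        have := Int.le_of_dvd (by norm_num) h3
        omega
      · simp only [Nat.cast_ofNat, Fin.mk_one, Matrix.cons_val_one, Matrix.cons_val_fin_one]
        intro h3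
        have h4 := dvd_sub h3 h
        have h5 : (2 : ℤ) + d - (1 + d) = 1 := by ring
        rw [h5] at h4
        have := Int.le_of_dvd (by norm_num) h4
        omega
    · refine ⟨1, by omega, fun j => ?_⟩
      fin_cases j
      · simp only [Nat.cast_one, Fin.zero_eta, Matrix.cons_val_zero, add_zero]
        intro h3
        have := Int.le_of_dvd (by norm_num) h3
        omega
      · simpa using h

lemma lone_pair {p₁ : ℕ} {d : ℤ} (hd : Even d) {κ M : ℝ} (hp₁ : 8 ≤ p₁) (hM : (p₁ : ℝ) ≤ M)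
    (hκ : κ * GG M ≤ (Real.log M) ^ 2) (hdκ : |(d : ℝ)| ≤ κ * GG M) {x : ℤ}
    (h : Lone 3 (sysT ![0, d] (adm_pair hd)) κ M x) (hx : (x : ℝ) ≤ M) :
    0 < x ∧ Almost (M ^ κ) ⌊((2 : ℕ) + 2 : ℝ) / κ⌋₊ x ∧ Almost (M ^ κ) ⌊((2 : ℕ) + 2 : ℝ) / κ⌋₊ (x + d) ∧
      ∀ i : ℤ, |(i : ℝ)| ≤ κ * GG M → i ≠ 0 → i ≠ d → ∃ q : ℕ, q.Prime ∧ (q : ℝ) ≤ Real.log M ∧ (q : ℤ) ∣ x + i := by
  have hM8 : (8 : ℝ) ≤ M := le_trans (by exact_mod_cast hp₁) hM
  obtain ⟨h0, h1, h2⟩ := lone_tuple (B := 2) hp₁ hM (fun j => by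
    fin_cases j
    · simp only [Fin.zero_eta, Matrix.cons_val_zero, Int.cast_zero, abs_zero]
      positivity
    · simpa using hdκ.trans hκ) h hx
  refine ⟨h0, ?_, ?_, fun i hi hi0 hid => h2 i hi fun j => ?_⟩
  · have := h1 0
    simpa using this
  · have := h1 1
    simpa using this
  · fin_cases j
    · simpa using hi0
    · simpa using hid

lemma adm_one : ∀ q : ℕ, q.Prime → ∃ a < q, ∀ j, ¬ (q : ℤ) ∣ a + (![0] : Fin 1 → ℤ) j := by
  intro q hq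
  refine ⟨1, hq.one_lt, fun j => ?_⟩
  fin_cases j
  simp only [Nat.cast_one, Fin.zero_eta, Matrix.cons_val_zero, add_zero]
  intro h3
  have := Int.le_of_dvd (by norm_num) h3
  have := hq.two_le
  omega

lemma lone_one {p₁ : ℕ} {κ M : ℝ} (hp₁ : 8 ≤ p₁) (hM : (p₁ : ℝ) ≤ M) {x : ℤ}
    (h : Lone 1 (sysT ![0] adm_one) κ M x) (hx : (x : ℝ) ≤ M) :
    0 < x ∧ Almost (M ^ κ) ⌊((1 : ℕ) + 2 : ℝ) / κ⌋₊ x ∧
      ∀ i : ℤ, |(i : ℝ)| ≤ κ * GG M → i ≠ 0 → ∃ q : ℕ, q.Prime ∧ (q : ℝ) ≤ Real.log M ∧ (q : ℤ) ∣ x + i := by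
  obtain ⟨h0, h1, h2⟩ := lone_tuple (B := 0) hp₁ hM (fun j => by
    fin_cases j
    simp) h hx
  refine ⟨h0, ?_, fun i hi hi0 => h2 i hi fun j => ?_⟩
  · have := h1 0
    simpa using this
  · fin_cases j
    simpa using hi0

end Pool.Agent.Q46.IP
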