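import Pool.Agent.Q46.IP.CritS

set_option autoImplicit false

/-! # Tools for the applications at shifted places -/

namespace Pool.Agent.Q46.IP

open Finset Filter Polynomial
open Pool.Agent.Q46.SL (PE Almost cb cb_mono cb_add cb_X cb_C)

lemma lone_tupleS {l B K p₁ : ℕ} {t : Fin l → ℤ} {ht : ∀ q : ℕ, q.Prime → ∃ a < q, ∀ j, ¬ (q : ℤ) ∣ a + t j}
    {h : ℤ} {κ M : ℝ} (hp₁ : 8 ≤ p₁) (hM : (p₁ : ℝ) ≤ M) (hh : |(h : ℝ)| ≤ M ^ K)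
    (hts : ∀ j, |(t j : ℝ)| ≤ (Real.log M) ^ B) {x : ℤ}
    (H : LoneS (B + 1) K (sysT t ht, h) κ M x) (hx : (x : ℝ) ≤ M) :
    (∀ j, Almost (M ^ κ) ⌊((((K + 2) * (l + 1) : ℕ)) : ℝ) / κ⌋₊ (h + x + t j)) ∧
      ∀ i : ℤ, |(i : ℝ)| ≤ κ * GG M → (∀ j, i ≠ t j) →
        ∃ q : ℕ, q.Prime ∧ (q : ℝ) ≤ Real.log M ∧ (q : ℤ) ∣ h + x + i := by
  have hM8 : (8 : ℝ) ≤ M := le_trans (by exact_mod_cast hp₁) hM
  have hl := two_le_log hM8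
  obtain ⟨h0, h1⟩ := H
  obtain ⟨h2, h3⟩ := h1 (by
    intro j
    have hB : (1 : ℝ) ≤ (Real.log M) ^ B := one_le_pow₀ (by linarith)
    refine cb_mono (cb_add cb_X (cb_C (t j))) ?_
    rw [pow_succ]
    have := hts j
    nlinarith) hh hx
  refine ⟨fun j => ?_, fun i hi hij => ?_⟩
  · simpa [sysT] using h2 j
  · apply h3 i hi
    intro j h4
    apply hij j
    have h5 : (X + C (t j) : ℤ[X]).eval (-i) = 0 := h4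
    simp only [eval_add, eval_X, eval_C] at h5
    linarith

lemma lone_pairS {K p₁ : ℕ} {d : ℤ} (hd : Even d) {h : ℤ} {κ M : ℝ} (hp₁ : 8 ≤ p₁) (hM : (p₁ : ℝ) ≤ M)
    (hh : |(h : ℝ)| ≤ M ^ K) (hκ : κ * GG M ≤ (Real.log M) ^ 2) (hdκ : |(d : ℝ)| ≤ κ * GG M) {x : ℤ}
    (H : LoneS 3 K (sysT ![0, d] (adm_pair hd), h) κ M x) (hx : (x : ℝ) ≤ M) :
    Almost (M ^ κ) ⌊((((K + 2) * (2 + 1) : ℕ)) : ℝ) / κ⌋₊ (h + x) ∧
      Almost (M ^ κ) ⌊((((K + 2) * (2 + 1) : ℕ)) : ℝ) / κ⌋₊ (h + x + d) ∧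
      ∀ i : ℤ, |(i : ℝ)| ≤ κ * GG M → i ≠ 0 → i ≠ d →
        ∃ q : ℕ, q.Prime ∧ (q : ℝ) ≤ Real.log M ∧ (q : ℤ) ∣ h + x + i := by
  have hM8 : (8 : ℝ) ≤ M := le_trans (by exact_mod_cast hp₁) hM
  obtain ⟨h1, h2⟩ := lone_tupleS (B := 2) hp₁ hM hh (fun j => by
    fin_cases j
    · simp only [Fin.zero_eta, Matrix.cons_val_zero, Int.cast_zero, abs_zero]
      positivity
    · simpa using hdκ.trans hκ) H hx
  refine ⟨?_, ?_, fun i hi hi0 hid => h2 i hi fun j => ?_⟩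
  · have := h1 0
    simpa using this
  · have := h1 1
    simpa using this
  · fin_cases j
    · simpa using hi0
    · simpa using hid

lemma lone_oneS {K p₁ : ℕ} {h : ℤ} {κ M : ℝ} (hp₁ : 8 ≤ p₁) (hM : (p₁ : ℝ) ≤ M) (hh : |(h : ℝ)| ≤ M ^ K) {x : ℤ}
    (H : LoneS 1 K (sysT ![0] adm_one, h) κ M x) (hx : (x : ℝ) ≤ M) :
    Almost (M ^ κ) ⌊((((K + 2) * (1 + 1) : ℕ)) : ℝ) / κ⌋₊ (h + x) ∧
      ∀ i : ℤ, |(i : ℝ)| ≤ κ * GG M → i ≠ 0 →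
        ∃ q : ℕ, q.Prime ∧ (q : ℝ) ≤ Real.log M ∧ (q : ℤ) ∣ h + x + i := by
  obtain ⟨h1, h2⟩ := lone_tupleS (B := 0) hp₁ hM hh (fun j => by
    fin_cases j
    simp) H hx
  refine ⟨?_, fun i hi hi0 => h2 i hi fun j => ?_⟩
  · have := h1 0
    simpa using this
  · fin_cases j
    simpa using hi0

end Pool.Agent.Q46.IP
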